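import Pool.Agent.Helper52.BP.Sheet

/-! # Row FINA of the project BP (MP_de6334_lc) -/

set_option autoImplicit false

namespace Pool.Helper52.BP

open Finset

namespace S52

lemma one_le_na {n : ℕ} (W : ℕ → Finset (Fin n)) (m : ℕ) (hn : 0 < n) : 1 ≤ na W m := by
  unfold na
  refine Finset.card_pos.2 ?_
  exact (Finset.image_nonempty).2 ⟨⟨0, hn⟩, mem_univ _⟩

lemma one_le_logb (V : ℕ) (hV : 2 ≤ V) : 1 ≤ Real.logb 2 V := by
  rw [Real.le_logb_iff_rpow_le (by norm_num) (by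
    have : 0 < V := by omega
    exact_mod_cast this), Real.rpow_one]
  exact_mod_cast hV

lemma eight_R (r n : ℕ) (hr : 2 ≤ r) (hn : 64 ≤ n) : 8 * 2 ^ (Nat.log 2 n / r) ≤ n := by
  have hL6 : 6 ≤ Nat.log 2 n := Nat.le_log_of_pow_le (by norm_num) (by norm_num; omega)
  have h1 : Nat.log 2 n / r ≤ Nat.log 2 n / 2 := Nat.div_le_div_left hr (by norm_num)
  calc 8 * 2 ^ (Nat.log 2 n / r) = 2 ^ (3 + Nat.log 2 n / r) := by rw [pow_add]; norm_num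
    _ ≤ 2 ^ Nat.log 2 n := Nat.pow_le_pow_right (by norm_num) (by omega)
    _ ≤ n := Nat.pow_log_le_self 2 (by omega)

lemma wd_pos (r n : ℕ) (hr : 2 ≤ r) (hn : 64 ≤ n) : 1 ≤ wd r n := by
  unfold wd
  exact (Nat.one_le_div_iff (by positivity)).2 (eight_R r n hr hn)

lemma wd_le (r n : ℕ) : 4 * wd r n ≤ n := by
  unfold wd
  have h1 : n / (8 * 2 ^ (Nat.log 2 n / r)) ≤ n / 8 :=
    Nat.div_le_div_left (Nat.le_mul_of_pos_right _ (by positivity)) (by norm_num)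
  omega

lemma R_le (r n : ℕ) (hr : 0 < r) (hn : 1 ≤ n) :
    ((2 ^ (Nat.log 2 n / r) : ℕ) : ℝ) ≤ (n : ℝ) ^ (1 / (r : ℝ)) := by
  have hr0 : (0 : ℝ) < r := by exact_mod_cast hr
  have h1 : ((2 ^ (Nat.log 2 n / r) : ℕ) : ℝ) ^ r ≤ (n : ℝ) := by
    have h2 : (2 ^ (Nat.log 2 n / r)) ^ r ≤ n := by
      rw [← pow_mul]
      refine le_trans (Nat.pow_le_pow_right (by norm_num) (Nat.div_mul_le_self _ _))
        (Nat.pow_log_le_self 2 (by omega))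
    exact_mod_cast h2
  have h3 : (((2 ^ (Nat.log 2 n / r) : ℕ) : ℝ) ^ r) ^ (1 / (r : ℝ)) ≤ (n : ℝ) ^ (1 / (r : ℝ)) :=
    Real.rpow_le_rpow (by positivity) h1 (by positivity)
  rw [one_div, Real.pow_rpow_inv_natCast (by positivity) (by omega)] at h3
  rw [one_div]
  exact h3

lemma log_sq_le (r n : ℕ) (hr : 0 < r) (hn : 1 ≤ n) :
    Real.logb 2 n ^ 2 ≤ 16 * (r : ℝ) ^ 2 * (n : ℝ) ^ (1 / (r : ℝ)) := by
  have hr0 : (0 : ℝ) < r := by exact_mod_cast hr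
  have hn1 : (1 : ℝ) ≤ n := by exact_mod_cast hn
  have h0 : 0 ≤ Real.log n := Real.log_nonneg hn1
  have h1 : Real.log n ≤ (n : ℝ) ^ (1 / (2 * (r : ℝ))) / (1 / (2 * (r : ℝ))) :=
    Real.log_le_rpow_div (by linarith) (by positivity)
  have h2 : Real.logb 2 n ≤ 2 * Real.log n := by
    unfold Real.logb
    rw [div_le_iff₀ (Real.log_pos (by norm_num))]
    have h3 : (1 : ℝ) / 2 < Real.log 2 := by
      have := Real.log_two_gt_d9
      linarith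
    nlinarith
  have h4 : 0 ≤ Real.logb 2 n := Real.logb_nonneg (by norm_num) hn1
  have h5 : Real.logb 2 n ≤ 4 * r * (n : ℝ) ^ (1 / (2 * (r : ℝ))) := by
    have e : (n : ℝ) ^ (1 / (2 * (r : ℝ))) / (1 / (2 * (r : ℝ))) =
        2 * r * (n : ℝ) ^ (1 / (2 * (r : ℝ))) := by
      field_simp
    rw [e] at h1
    linarith
  have h6 : ((n : ℝ) ^ (1 / (2 * (r : ℝ)))) ^ 2 = (n : ℝ) ^ (1 / (r : ℝ)) := by
    rw [← Real.rpow_natCast, ← Real.rpow_mul (by linarith)]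
    congr 1
    push_cast
    field_simp
  calc Real.logb 2 n ^ 2 ≤ (4 * r * (n : ℝ) ^ (1 / (2 * (r : ℝ)))) ^ 2 :=
        pow_le_pow_left₀ h4 h5 2
    _ = 16 * (r : ℝ) ^ 2 * (n : ℝ) ^ (1 / (r : ℝ)) := by
        rw [mul_pow, h6]
        ring

end S52

theorem st_FINA (hF : ST_FIN1) (hTW : ST_TW) : ST_FINA := by
  intro r hr
  have hr0 : (0 : ℝ) < r := by
    have : 0 < r := by omega
    exact_mod_cast this
  have hr1 : (1 : ℝ) ≤ r := by
    have : 1 ≤ r := by omega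
    exact_mod_cast this
  refine ⟨1 / (24576 * (r : ℝ) ^ 2 * 4 ^ (4 * r)), by positivity, ?_⟩
  intro n V T B W hn hC hR hW
  have hn1 : (1 : ℝ) ≤ n := by
    have : 1 ≤ n := by omega
    exact_mod_cast this
  obtain ⟨hwT, hV⟩ := hTW n V T (wd r n) B W hn (S52.wd_pos r n hr hn) (S52.wd_le r n) hC hR hW
  have hw1 := S52.wd_pos r n hr hn
  have hS := S52.one_le_logb V hV
  have ha : (1 : ℝ) ≤ (na W (T / wd r n + 1) : ℝ) := by
    exact_mod_cast S52.one_le_na W (T / wd r n + 1) (by omega)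
  have hT1 : (1 : ℝ) ≤ T := by
    have : 1 ≤ T := by omega
    exact_mod_cast this
  have hX : (T : ℝ) ≤ (T : ℝ) * Real.logb 2 V * (na W (T / wd r n + 1) : ℝ) := by
    have h1 : (T : ℝ) ≤ (T : ℝ) * Real.logb 2 V := le_mul_of_one_le_right (by linarith) hS
    exact h1.trans (le_mul_of_one_le_right (by positivity) ha)
  have hexp : (n : ℝ) ^ (2 - 2 / (r : ℝ)) ≤ (n : ℝ) ^ 2 := by
    rw [← Real.rpow_natCast]
    refine Real.rpow_le_rpow_of_exponent_le hn1 ?_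
    have : 0 ≤ 2 / (r : ℝ) := by positivity
    push_cast
    linarith
  have hc1 : 1 / (24576 * (r : ℝ) ^ 2 * 4 ^ (4 * r)) ≤ 1 := by
    rw [div_le_one (by positivity)]
    have h1 : (1 : ℝ) ≤ (r : ℝ) ^ 2 := one_le_pow₀ hr1
    have h2 : (1 : ℝ) ≤ 4 ^ (4 * r) := one_le_pow₀ (by norm_num)
    have h3 : (1 : ℝ) ≤ (r : ℝ) ^ 2 * 4 ^ (4 * r) := one_le_mul_of_one_le_of_one_le h1 h2
    nlinarith
  by_cases hTn : n ^ 2 ≤ T
  · have h1 : (n : ℝ) ^ 2 ≤ T := by exact_mod_cast hTn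
    calc 1 / (24576 * (r : ℝ) ^ 2 * 4 ^ (4 * r)) * (n : ℝ) ^ (2 - 2 / (r : ℝ))
        ≤ 1 * (n : ℝ) ^ 2 := mul_le_mul hc1 hexp (by positivity) (by norm_num)
      _ ≤ T := by linarith
      _ ≤ _ := hX
  by_cases hL : Nat.log 2 n < 4 * r + 2
  · have h1 : n < 2 ^ (4 * r + 2) := lt_of_lt_of_le (Nat.lt_pow_succ_log_self (by norm_num) n)
      (Nat.pow_le_pow_right (by norm_num) (by omega))
    have h2 : (n : ℝ) ^ 2 ≤ 16 * 4 ^ (4 * r) := by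
      have h3 : (n : ℝ) ≤ 2 ^ (4 * r + 2) := by exact_mod_cast h1.le
      calc (n : ℝ) ^ 2 ≤ (2 ^ (4 * r + 2)) ^ 2 := pow_le_pow_left₀ (by linarith) h3 2
        _ = 16 * 4 ^ (4 * r) := by
          rw [← pow_mul, show (4 : ℝ) = 2 ^ 2 by norm_num, ← pow_mul]
          ring
    have h4 : 1 / (24576 * (r : ℝ) ^ 2 * 4 ^ (4 * r)) * (n : ℝ) ^ (2 - 2 / (r : ℝ)) ≤ 1 := by
      rw [one_div_mul_eq_div, div_le_one (by positivity)]
      refine hexp.trans (h2.trans ?_)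
      have h5 : (1 : ℝ) ≤ (r : ℝ) ^ 2 := one_le_pow₀ hr1
      have h6 : (0 : ℝ) < 4 ^ (4 * r) := by positivity
      nlinarith
    linarith
  -- the main case
  have hL' : 4 * r + 2 ≤ Nat.log 2 n := by omega
  have hRn := S52.eight_R r n hr hn
  have hlog : n < 2 ^ (Nat.log 2 n + 1) := Nat.lt_pow_succ_log_self (by norm_num) n
  have hdiv : Nat.log 2 n < r * (Nat.log 2 n / r) + r := by
    have h1 := Nat.div_add_mod (Nat.log 2 n) r
    have h2 := Nat.mod_lt (Nat.log 2 n) (show 0 < r by omega)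
    omega
  have hR2 : 2 ≤ 2 ^ (Nat.log 2 n / r) := by
    have h1 : 1 ≤ Nat.log 2 n / r := (Nat.one_le_div_iff (by omega)).2 (by omega)
    calc 2 = 2 ^ 1 := by norm_num
      _ ≤ _ := Nat.pow_le_pow_right (by norm_num) h1
  have hm : nw W (T / (n / (8 * 2 ^ (Nat.log 2 n / r))) + 1) <
      (2 ^ (Nat.log 2 n / r)) ^ (4 * r) := by
    have h1 : nw W (T / (n / (8 * 2 ^ (Nat.log 2 n / r))) + 1) ≤
        T / (n / (8 * 2 ^ (Nat.log 2 n / r))) + 1 := by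
      unfold nw
      refine card_image_le.trans ?_
      rw [card_range]
    have h2 : T / (n / (8 * 2 ^ (Nat.log 2 n / r))) ≤ T := Nat.div_le_self _ _
    have h3 : T < (2 ^ (Nat.log 2 n + 1)) ^ 2 := by
      have : n ^ 2 < (2 ^ (Nat.log 2 n + 1)) ^ 2 := Nat.pow_lt_pow_left hlog (by norm_num)
      omega
    have h4 : (2 ^ (Nat.log 2 n + 1)) ^ 2 + 1 ≤ (2 ^ (Nat.log 2 n / r)) ^ (4 * r) := by
      have h5 : (2 ^ (Nat.log 2 n + 1)) ^ 2 = 2 ^ (2 * Nat.log 2 n + 2) := by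
        rw [← pow_mul]
        congr 1
        ring
      have h6 : (2 ^ (Nat.log 2 n / r)) ^ (4 * r) = 2 ^ (4 * (r * (Nat.log 2 n / r))) := by
        rw [← pow_mul]
        congr 1
        ring
      have h7 : 2 ^ (2 * Nat.log 2 n + 3) ≤ 2 ^ (4 * (r * (Nat.log 2 n / r))) :=
        Nat.pow_le_pow_right (by norm_num) (by omega)
      have h8 : 2 ^ (2 * Nat.log 2 n + 3) = 2 ^ (2 * Nat.log 2 n + 2) * 2 := pow_succ _ _
      have h9 : 1 ≤ 2 ^ (2 * Nat.log 2 n + 2) := Nat.one_le_pow _ _ (by norm_num)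
      rw [h5, h6]
      omega
    omega
  have hmain := hF n V T (2 ^ (Nat.log 2 n / r)) (4 * r) B W hn hR2 hRn (by omega)
    (by unfold kk; omega) hm hC hR hW
  have hRle := S52.R_le r n (by omega) (by omega)
  have hlg := S52.log_sq_le r n (by omega) (by omega)
  have hX' : (T : ℝ) * Real.logb 2 V * (na W (T / (n / (8 * 2 ^ (Nat.log 2 n / r))) + 1) : ℝ) =
      (T : ℝ) * Real.logb 2 V * (na W (T / wd r n + 1) : ℝ) := rfl
  rw [hX'] at hmain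
  obtain ⟨X, hXd⟩ : ∃ X, X = (T : ℝ) * Real.logb 2 V * (na W (T / wd r n + 1) : ℝ) := ⟨_, rfl⟩
  rw [← hXd] at hmain hX ⊢
  have hX0 : 0 ≤ X := by linarith
  have hp : (n : ℝ) ^ (1 / (r : ℝ)) * (n : ℝ) ^ (1 / (r : ℝ)) * (n : ℝ) ^ (2 - 2 / (r : ℝ)) =
      (n : ℝ) ^ 2 := by
    rw [← Real.rpow_add (by linarith), ← Real.rpow_add (by linarith), ← Real.rpow_natCast]
    congr 1
    push_cast
    field_simp
    ring
  have hpos : (0 : ℝ) < (n : ℝ) ^ (1 / (r : ℝ)) := Real.rpow_pos_of_pos (by linarith) _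
  have h4 : ((2 ^ (Nat.log 2 n / r) : ℕ) : ℝ) * 4 ^ (4 * r) * Real.logb 2 n ^ 2 ≤
      (n : ℝ) ^ (1 / (r : ℝ)) * 4 ^ (4 * r) * (16 * (r : ℝ) ^ 2 * (n : ℝ) ^ (1 / (r : ℝ))) := by
    refine mul_le_mul ?_ hlg (by positivity) (by positivity)
    exact mul_le_mul_of_nonneg_right hRle (by positivity)
  have h5 : (n : ℝ) ^ 2 ≤ 1536 * X * ((n : ℝ) ^ (1 / (r : ℝ)) * 4 ^ (4 * r) *
      (16 * (r : ℝ) ^ 2 * (n : ℝ) ^ (1 / (r : ℝ)))) :=
    hmain.trans (mul_le_mul_of_nonneg_left h4 (by positivity))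
  rw [← hp] at h5
  have h6 : (n : ℝ) ^ (2 - 2 / (r : ℝ)) ≤ (24576 * (r : ℝ) ^ 2 * 4 ^ (4 * r)) * X := by
    have h7 : 0 < (n : ℝ) ^ (1 / (r : ℝ)) * (n : ℝ) ^ (1 / (r : ℝ)) := by positivity
    refine le_of_mul_le_mul_left ?_ h7
    calc (n : ℝ) ^ (1 / (r : ℝ)) * (n : ℝ) ^ (1 / (r : ℝ)) * (n : ℝ) ^ (2 - 2 / (r : ℝ)) ≤ _ := h5
      _ = _ := by ring
  rw [one_div_mul_eq_div, div_le_iff₀ (by positivity)]
  linarith

end Pool.Helper52.BP
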