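import Pool.Agent.Helper52.BP.Sheet

/-! # Adaptive programs with local reading (MP_de6334_lc)

`F` is a family of sets of variables with `naF F` atoms.  On every input, in every window of `w`
consecutive steps, the variables read are contained in a member of `F` (which may depend on the input).
-/

set_option autoImplicit false

namespace Pool.Helper52.BP

open Finset

/-- On every input, in every window of `w` steps, all variables read are in one member of `F`. -/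
def ReadsA {n V : ℕ} (B : BP n V) (T w : ℕ) (F : Finset (Finset (Fin n))) : Prop :=
  ∀ z i, ∃ X ∈ F, ∀ t x, t < T → t / w = i → B.lab (B.st z t) = some x → x ∈ X

/-- the number of atoms of `F` -/
def naF {n : ℕ} (F : Finset (Finset (Fin n))) : ℕ :=
  (univ.image (fun v : Fin n => F.filter (fun X => v ∈ X))).card

/-- ATOM2 (from GREEDY, CHUNK; same proof as ATOM). -/
def ST_ATOM2 : Prop := ∀ (n N R q s : ℕ) (F : Finset (Finset (Fin n))), N ≤ n → 1 ≤ n → 1 ≤ q →
  (∀ X ∈ F, 2 * R * X.card ≤ N) → F.card < R ^ q → q * s * (2 * naF F) ≤ N →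
  ∃ (e : Fin q × Fin s → Fin n) (jj : Finset (Fin n) → Fin q),
    Function.Injective e ∧ (∀ p, (e p : ℕ) < N) ∧ ∀ X ∈ F, ∀ l, e (jj X, l) ∉ X

/-- CUT2.  `λ i = (v, j)`: `v` = node at the time `min ((i + 1) w) T`, `j` = the SMALLEST index such that
no variable `e (j, ·)` is read in window `i`.  The factor of window `i`: the run from the node of
`λ (i - 1)` during window `i` reads no variable `e (j, ·)`, reads some `e (j', ·)` for every `j' < j`, and
ends in `v`.  It does not depend on `u j`: if two inputs differ only in block `j` and the run on one of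
them does not read block `j`, then the runs are the same. -/
def ST_CUT2 : Prop := ∀ (n V T w m q s : ℕ) (B : BP n V)
  (e : Fin q × Fin s → Fin n) (io : (Fin q → Fin s → Bool) → (Fin n → Bool)),
  1 ≤ w → 1 ≤ m → T ≤ m * w →
  (∀ u, ∀ i < m, ∃ j : Fin q, ∀ t x, t < T → t / w = i → B.lab (B.st (io u) t) = some x →
    ∀ l, x ≠ e (j, l)) →
  (∀ u u' v, (∀ p, e p = v → u p.1 p.2 = u' p.1 p.2) → io u v = io u' v) →
  ∃ (al : (Fin m → Fin V × Fin q) → ℝ)
    (ph : (Fin m → Fin V × Fin q) → Fin q → (Fin q → Fin s → Bool) → ℝ),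
    (∀ la, |al la| ≤ 1) ∧ (∀ la j u, |ph la j u| ≤ 1) ∧
    (∀ la j u u', (∀ j', j' ≠ j → u j' = u' j') → ph la j u = ph la j u') ∧
    ∀ u, (if B.out (B.st (io u) T) = true then (1 : ℝ) else 0) = ∑ la, al la * ∏ j, ph la j u

/-- COMB2 (from CUT2, BNS; same proof as COMB). -/
def ST_COMB2 : Prop := ∀ (n V T w m q s : ℕ) (B : BP n V)
  (e : Fin q × Fin s → Fin n) (io : (Fin q → Fin s → Bool) → (Fin n → Bool)),
  1 ≤ q → 1 ≤ w → 1 ≤ m → T ≤ m * w →
  (∀ u, ∀ i < m, ∃ j : Fin q, ∀ t x, t < T → t / w = i → B.lab (B.st (io u) t) = some x →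
    ∀ l, x ≠ e (j, l)) →
  (∀ u u' v, (∀ p, e p = v → u p.1 p.2 = u' p.1 p.2) → io u v = io u' v) →
  (∀ u, B.out (B.st (io u) T) = decide (ones u % 2 = 1)) →
  1 ≤ 3 * ((V : ℝ) * (q : ℝ)) ^ m * (1 - (1 / 4 : ℝ) ^ q) ^ s

/-- TW2 (from EMB with `q = 1`, `s = LL n`, `e (0, l) = l`): `f n` restricts to the parity of `LL n`
arguments; if `T < LL n`, some argument is not read on the input with all these arguments `true`, and
changing it changes the value. -/
def ST_TW2 : Prop := ∀ (n V T : ℕ) (B : BP n V), 64 ≤ n → Comp B T (f n) → LL n ≤ T ∧ 2 ≤ V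

/-- FIN12 (from ATOM2, EMB, COMB2), `m = T / w + 1`, `N = 2 ^ kk n`, `s = N / (2 a k²)`; the missed set
is `jj X` for the member `X` of `F` of the window.  `log (V q) ≤ 2 k log V`.  Compare
`Helper38/BP/FIN1.lean`. -/
def ST_FIN12 : Prop := ∀ (n V T w R q : ℕ) (B : BP n V) (F : Finset (Finset (Fin n))),
  64 ≤ n → 2 ≤ R → 1 ≤ q → q ≤ kk n → F.card < R ^ q → Comp B T (f n) → ReadsA B T w F →
  (∀ X ∈ F, 8 * R * X.card ≤ n) → 1 ≤ w → w ≤ T → 2 ≤ V →
  (n : ℝ) * w ≤ 192 * ((T : ℝ) * Real.logb 2 V * (naF F : ℝ)) * (4 ^ q * Real.logb 2 n ^ 3)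

/-- FINA2 (from FIN12, TW2).  `R = 2 ^ (log₂ n / r)`, `q = 4 r (C + 1)`; for large `n`: `w ≤ LL n ≤ T`,
`n ^ C < R ^ q`, `4 ^ q log³ n ≤ K n ^ (1 / r)`; small `n`: `T, logb V, a ≥ 1`. -/
def ST_FINA2 : Prop := ∀ r C : ℕ, 2 ≤ r → ∃ c : ℝ, 0 < c ∧ ∀ (n V T w : ℕ) (B : BP n V)
  (F : Finset (Finset (Fin n))), 64 ≤ n → Comp B T (f n) → 1 ≤ w → w ≤ wd r n →
  ReadsA B T w F → (∀ X ∈ F, X.card ≤ wd r n) → F.card ≤ n ^ C →
  c * ((w : ℝ) * (n : ℝ) ^ (1 - 1 / (r : ℝ))) ≤ (T : ℝ) * Real.logb 2 V * (naF F : ℝ)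

end Pool.Helper52.BP
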