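import Pool.Agent.Helper52.BP.FINA
import Pool.Agent.Helper52.BP.Sheet2

/-! # Row FINA2 of the project BP (MP_de6334_lc) -/

set_option autoImplicit false

namespace Pool.Helper52.BP

open Finset

namespace S52

lemma one_le_naF {n : ℕ} (F : Finset (Finset (Fin n))) (hn : 0 < n) : 1 ≤ naF F := by
  unfold naF
  refine Finset.card_pos.2 ?_
  exact (Finset.image_nonempty).2 ⟨⟨0, hn⟩, mem_univ _⟩

lemma sq_le_two_pow (k : ℕ) (hk : 5 ≤ k) : k ^ 2 ≤ 2 ^ k := by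
  induction k, hk using Nat.le_induction with
  | base => norm_num
  | succ k hk ih =>
    rw [pow_succ 2 k]
    nlinarith

lemma log_cube_le (r n : ℕ) (hr : 0 < r) (hn : 1 ≤ n) :
    Real.logb 2 n ^ 3 ≤ 216 * (r : ℝ) ^ 3 * (n : ℝ) ^ (1 / (r : ℝ)) := by
  have hr0 : (0 : ℝ) < r := by exact_mod_cast hr
  have hn1 : (1 : ℝ) ≤ n := by exact_mod_cast hn
  have h0 : 0 ≤ Real.log n := Real.log_nonneg hn1
  have h1 : Real.log n ≤ (n : ℝ) ^ (1 / (3 * (r : ℝ))) / (1 / (3 * (r : ℝ))) :=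
    Real.log_le_rpow_div (by linarith) (by positivity)
  have h2 : Real.logb 2 n ≤ 2 * Real.log n := by
    unfold Real.logb
    rw [div_le_iff₀ (Real.log_pos (by norm_num))]
    have h3 : (1 : ℝ) / 2 < Real.log 2 := by
      have := Real.log_two_gt_d9
      linarith
    nlinarith
  have h4 : 0 ≤ Real.logb 2 n := Real.logb_nonneg (by norm_num) hn1
  have h5 : Real.logb 2 n ≤ 6 * r * (n : ℝ) ^ (1 / (3 * (r : ℝ))) := by
    have e : (n : ℝ) ^ (1 / (3 * (r : ℝ))) / (1 / (3 * (r : ℝ))) =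
        3 * r * (n : ℝ) ^ (1 / (3 * (r : ℝ))) := by
      field_simp
    rw [e] at h1
    linarith
  have h6 : ((n : ℝ) ^ (1 / (3 * (r : ℝ)))) ^ 3 = (n : ℝ) ^ (1 / (r : ℝ)) := by
    rw [← Real.rpow_natCast, ← Real.rpow_mul (by linarith)]
    congr 1
    push_cast
    field_simp
  calc Real.logb 2 n ^ 3 ≤ (6 * r * (n : ℝ) ^ (1 / (3 * (r : ℝ)))) ^ 3 :=
        pow_le_pow_left₀ h4 h5 3
    _ = 216 * (r : ℝ) ^ 3 * (n : ℝ) ^ (1 / (r : ℝ)) := by
        rw [mul_pow, h6]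
        ring

/-- `(r (x + 1))² ≤ 2 ^ x` for `x ≥ 16 r` -/
lemma grow (r x : ℕ) (hx : 16 * r ≤ x) : (r * (x + 1)) ^ 2 ≤ 2 ^ x := by
  obtain ⟨y, hy⟩ : ∃ y, y = x / 4 := ⟨_, rfl⟩
  have hy1 : 4 * r ≤ y := by omega
  have hy2 : x + 1 ≤ 4 * (y + 1) := by omega
  have hy3 : 4 * y ≤ x := by omega
  have h1 : y + 1 ≤ 2 ^ y := Nat.lt_two_pow_self
  have h2 : 4 * r ≤ 2 ^ y := by omega
  have h3 : r * (x + 1) ≤ 2 ^ y * 2 ^ y := by
    calc r * (x + 1) ≤ r * (4 * (y + 1)) := Nat.mul_le_mul_left _ hy2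
      _ = (4 * r) * (y + 1) := by ring
      _ ≤ 2 ^ y * 2 ^ y := Nat.mul_le_mul h2 h1
  calc (r * (x + 1)) ^ 2 ≤ (2 ^ y * 2 ^ y) ^ 2 := Nat.pow_le_pow_left h3 2
    _ = 2 ^ (4 * y) := by
      rw [← pow_add, ← pow_mul]
      congr 1
      ring
    _ ≤ 2 ^ x := Nat.pow_le_pow_right (by norm_num) hy3

end S52

theorem st_FINA2 (hF : ST_FIN12) (hTW : ST_TW2) : ST_FINA2 := by
  intro r C hr
  have hr0 : (0 : ℝ) < r := by
    have : 0 < r := by omega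
    exact_mod_cast this
  have hr1 : (1 : ℝ) ≤ r := by
    have : 1 ≤ r := by omega
    exact_mod_cast this
  obtain ⟨q, hq⟩ : ∃ q, q = 4 * r * (C + 1) := ⟨_, rfl⟩
  obtain ⟨L0, hL0⟩ : ∃ L0, L0 = 16 * r ^ 2 + q + 1 := ⟨_, rfl⟩
  refine ⟨1 / (41472 * (r : ℝ) ^ 3 * 4 ^ q * 4 ^ L0), by positivity, ?_⟩
  intro n V T w B F hn hC hw1 hw hR hX hFC
  have hn1 : (1 : ℝ) ≤ n := by
    have : 1 ≤ n := by omega
    exact_mod_cast this
  obtain ⟨hLT, hV⟩ := hTW n V T B hn hC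
  have hS := S52.one_le_logb V hV
  have ha : (1 : ℝ) ≤ (naF F : ℝ) := by
    exact_mod_cast S52.one_le_naF F (by omega)
  have hL6 : 6 ≤ Nat.log 2 n := Nat.le_log_of_pow_le (by norm_num) (by norm_num; omega)
  have hLL1 : 1 ≤ LL n := by
    unfold LL
    have hk5 : 5 ≤ kk n := by unfold kk; omega
    exact (Nat.one_le_div_iff (by positivity)).2 (S52.sq_le_two_pow _ hk5)
  have hT1 : (1 : ℝ) ≤ T := by
    have : 1 ≤ T := by omega
    exact_mod_cast this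
  have hX1 : (1 : ℝ) ≤ (T : ℝ) * Real.logb 2 V * (naF F : ℝ) :=
    one_le_mul_of_one_le_of_one_le (one_le_mul_of_one_le_of_one_le hT1 hS) ha
  have hwn : (w : ℝ) ≤ n := by
    have h1 := S52.wd_le r n
    have : w ≤ n := by omega
    exact_mod_cast this
  have hc3 : (1 : ℝ) ≤ 41472 * (r : ℝ) ^ 3 * 4 ^ q := by
    have h1 : (1 : ℝ) ≤ (r : ℝ) ^ 3 := one_le_pow₀ hr1
    have h2 : (1 : ℝ) ≤ 4 ^ q := one_le_pow₀ (by norm_num)
    have h3 : (1 : ℝ) ≤ (r : ℝ) ^ 3 * 4 ^ q := one_le_mul_of_one_le_of_one_le h1 h2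
    nlinarith
  have hc4 : (1 : ℝ) ≤ 4 ^ L0 := one_le_pow₀ (by norm_num)
  by_cases hL : Nat.log 2 n < L0
  · have h1 : n ≤ 2 ^ L0 := (Nat.lt_pow_succ_log_self (by norm_num) n).le.trans
      (Nat.pow_le_pow_right (by norm_num) (by omega))
    have h2 : (n : ℝ) ≤ 2 ^ L0 := by exact_mod_cast h1
    have h3 : (w : ℝ) * (n : ℝ) ^ (1 - 1 / (r : ℝ)) ≤ 4 ^ L0 := by
      have h4 : (n : ℝ) ^ (1 - 1 / (r : ℝ)) ≤ n := by
        calc (n : ℝ) ^ (1 - 1 / (r : ℝ)) ≤ (n : ℝ) ^ (1 : ℝ) := by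
              refine Real.rpow_le_rpow_of_exponent_le hn1 ?_
              have : 0 ≤ 1 / (r : ℝ) := by positivity
              linarith
          _ = n := Real.rpow_one _
      calc (w : ℝ) * (n : ℝ) ^ (1 - 1 / (r : ℝ)) ≤ 2 ^ L0 * 2 ^ L0 :=
            mul_le_mul (hwn.trans h2) (h4.trans h2) (by positivity) (by positivity)
        _ = 4 ^ L0 := by rw [← mul_pow]; norm_num
    rw [one_div_mul_eq_div]
    refine le_trans ?_ hX1
    rw [div_le_one (by positivity)]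
    calc (w : ℝ) * (n : ℝ) ^ (1 - 1 / (r : ℝ)) ≤ 4 ^ L0 := h3
      _ ≤ 41472 * (r : ℝ) ^ 3 * 4 ^ q * 4 ^ L0 := le_mul_of_one_le_left (by positivity) hc3
  -- large `n`
  have hL' : L0 ≤ Nat.log 2 n := by omega
  have hlog : n < 2 ^ (Nat.log 2 n + 1) := Nat.lt_pow_succ_log_self (by norm_num) n
  have hmod : r * (Nat.log 2 n / r) + Nat.log 2 n % r = Nat.log 2 n := Nat.div_add_mod _ _
  have hmodlt : Nat.log 2 n % r < r := Nat.mod_lt _ (by omega)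
  have hrr : 16 * r * r ≤ Nat.log 2 n := by
    have : 16 * r ^ 2 = 16 * r * r := by ring
    omega
  have hx : 16 * r ≤ Nat.log 2 n / r := (Nat.le_div_iff_mul_le (by omega)).2 hrr
  have hR2 : 2 ≤ 2 ^ (Nat.log 2 n / r) := by
    calc 2 = 2 ^ 1 := by norm_num
      _ ≤ _ := Nat.pow_le_pow_right (by norm_num) (by omega)
  have hk2 : kk n ^ 2 ≤ 2 * 2 ^ (Nat.log 2 n / r) := by
    have h1 := S52.grow r (Nat.log 2 n / r) hx
    have h2 : kk n ≤ r * (Nat.log 2 n / r + 1) := by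
      rw [Nat.mul_add, Nat.mul_one]
      unfold kk
      omega
    have h3 : kk n ^ 2 ≤ (r * (Nat.log 2 n / r + 1)) ^ 2 := Nat.pow_le_pow_left h2 2
    omega
  have hwLL : wd r n ≤ LL n := by
    unfold wd LL
    have hk0 : 0 < kk n ^ 2 := by
      have : 0 < kk n := by unfold kk; omega
      positivity
    have h1 : n ≤ 4 * 2 ^ kk n := by
      have h2 : 4 * 2 ^ kk n = 2 ^ (Nat.log 2 n + 1) := by
        rw [show (4 : ℕ) = 2 ^ 2 by norm_num, ← pow_add]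
        congr 1
        unfold kk
        omega
      omega
    calc n / (8 * 2 ^ (Nat.log 2 n / r)) ≤ (4 * 2 ^ kk n) / (8 * 2 ^ (Nat.log 2 n / r)) :=
          Nat.div_le_div_right h1
      _ = (4 * 2 ^ kk n) / (4 * (2 * 2 ^ (Nat.log 2 n / r))) := by
          congr 1
          ring
      _ = 2 ^ kk n / (2 * 2 ^ (Nat.log 2 n / r)) := Nat.mul_div_mul_left _ _ (by norm_num)
      _ ≤ 2 ^ kk n / kk n ^ 2 := Nat.div_le_div_left hk2 hk0
  have hcard : F.card < (2 ^ (Nat.log 2 n / r)) ^ q := by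
    have h1 : n ^ C ≤ (2 ^ (Nat.log 2 n + 1)) ^ C := Nat.pow_le_pow_left hlog.le C
    have h2 : (2 ^ (Nat.log 2 n + 1)) ^ C < (2 ^ (Nat.log 2 n / r)) ^ q := by
      rw [← pow_mul, ← pow_mul]
      refine Nat.pow_lt_pow_right (by norm_num) ?_
      have h3 : Nat.log 2 n + 1 ≤ 2 * (r * (Nat.log 2 n / r)) := by
        have h5 : 16 * r * r = 16 * (r * r) := by ring
        have h6 : r ≤ r * r := Nat.le_mul_self r
        omega
      calc (Nat.log 2 n + 1) * C < (Nat.log 2 n + 1) * (C + 1) :=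
            Nat.mul_lt_mul_of_pos_left (by omega) (by omega)
        _ ≤ 4 * (r * (Nat.log 2 n / r)) * (C + 1) := Nat.mul_le_mul_right _ (by omega)
        _ = Nat.log 2 n / r * q := by
          rw [hq]
          ring
    omega
  have hmain := hF n V T w (2 ^ (Nat.log 2 n / r)) q B F hn hR2 (by
      rw [hq]
      have h0 : 0 < r := by omega
      have h1 : 0 < 4 * r * (C + 1) := by positivity
      exact h1)
    (by unfold kk; omega) hcard hC hR (by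
      intro X hXF
      have h1 := hX X hXF
      unfold wd at h1
      calc 8 * 2 ^ (Nat.log 2 n / r) * X.card ≤
            8 * 2 ^ (Nat.log 2 n / r) * (n / (8 * 2 ^ (Nat.log 2 n / r))) :=
            Nat.mul_le_mul_left _ h1
        _ ≤ n := Nat.mul_div_le _ _) hw1 (by omega) hV
  have hlg := S52.log_cube_le r n (by omega) (by omega)
  obtain ⟨X, hXd⟩ : ∃ X, X = (T : ℝ) * Real.logb 2 V * (naF F : ℝ) := ⟨_, rfl⟩
  rw [← hXd] at hmain hX1 ⊢
  have hX0 : 0 ≤ X := by linarith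
  have hp : (n : ℝ) ^ (1 / (r : ℝ)) * (n : ℝ) ^ (1 - 1 / (r : ℝ)) = (n : ℝ) := by
    rw [← Real.rpow_add (by linarith)]
    have e : 1 / (r : ℝ) + (1 - 1 / (r : ℝ)) = 1 := by ring
    rw [e, Real.rpow_one]
  have hpos : (0 : ℝ) < (n : ℝ) ^ (1 / (r : ℝ)) := Real.rpow_pos_of_pos (by linarith) _
  have h5 : (n : ℝ) * w ≤ 192 * X * (4 ^ q * (216 * (r : ℝ) ^ 3 * (n : ℝ) ^ (1 / (r : ℝ)))) :=
    hmain.trans (mul_le_mul_of_nonneg_left (mul_le_mul_of_nonneg_left hlg (by positivity))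
      (by positivity))
  have h6 : (w : ℝ) * (n : ℝ) ^ (1 - 1 / (r : ℝ)) ≤ (41472 * (r : ℝ) ^ 3 * 4 ^ q) * X := by
    refine le_of_mul_le_mul_left ?_ hpos
    calc (n : ℝ) ^ (1 / (r : ℝ)) * ((w : ℝ) * (n : ℝ) ^ (1 - 1 / (r : ℝ))) =
          ((n : ℝ) ^ (1 / (r : ℝ)) * (n : ℝ) ^ (1 - 1 / (r : ℝ))) * w := by ring
      _ = n * w := by rw [hp]
      _ ≤ _ := h5
      _ = _ := by ring
  rw [one_div_mul_eq_div, div_le_iff₀ (by positivity)]
  calc (w : ℝ) * (n : ℝ) ^ (1 - 1 / (r : ℝ)) ≤ (41472 * (r : ℝ) ^ 3 * 4 ^ q) * X := h6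
    _ ≤ (41472 * (r : ℝ) ^ 3 * 4 ^ q) * X * 4 ^ L0 := le_mul_of_one_le_right (by positivity) hc4
    _ = X * (41472 * (r : ℝ) ^ 3 * 4 ^ q * 4 ^ L0) := by ring

end Pool.Helper52.BP
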