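import Pool.Agent.Helper52.BP.FINA2

/-! # Row FINA3 of the project BP (MP_de6334_lc): families of quasipolynomial size -/

set_option autoImplicit false

namespace Pool.Helper52.BP

open Finset

/-- as `ST_FINA2`, for families of at most `n ^ (c log n)` sets -/
def ST_FINA3 : Prop := ∀ r : ℕ, 2 ≤ r → ∃ c : ℝ, 0 < c ∧ ∀ (n V T w : ℕ) (B : BP n V)
  (F : Finset (Finset (Fin n))), 64 ≤ n → Comp B T (f n) → 1 ≤ w → w ≤ wd r n →
  ReadsA B T w F → (∀ X ∈ F, X.card ≤ wd r n) → (F.card : ℝ) ≤ (n : ℝ) ^ (c * Real.logb 2 n) →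
  c * ((w : ℝ) * (n : ℝ) ^ (1 - 1 / (r : ℝ))) ≤ (T : ℝ) * Real.logb 2 V * (naF F : ℝ)

theorem st_FINA3 (hF : ST_FIN12) (hTW : ST_TW2) : ST_FINA3 := by
  intro r hr
  have hr0 : (0 : ℝ) < r := by
    have : 0 < r := by omega
    exact_mod_cast this
  have hr1 : (1 : ℝ) ≤ r := by
    have : 1 ≤ r := by omega
    exact_mod_cast this
  obtain ⟨L0, hL0⟩ : ∃ L0, L0 = 16 * r ^ 2 + 4 * r + 1 := ⟨_, rfl⟩
  refine ⟨1 / (331776 * (r : ℝ) ^ 3 * 4 ^ L0), by positivity, ?_⟩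
  intro n V T w B F hn hC hw1 hw hR hX hFC
  have hn1 : (1 : ℝ) ≤ n := by
    have : 1 ≤ n := by omega
    exact_mod_cast this
  obtain ⟨hLT, hV⟩ := hTW n V T B hn hC
  have hS := S52.one_le_logb V hV
  have ha : (1 : ℝ) ≤ (naF F : ℝ) := by
    exact_mod_cast S52.one_le_naF F (by omega)
  have hL6 : 6 ≤ Nat.log 2 n := Nat.le_log_of_pow_le (by norm_num) (by norm_num; omega)
  have hLL1 : 1 ≤ LL n := by
    unfold LL
    have hk5 : 5 ≤ kk n := by unfold kk; omega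
    exact (Nat.one_le_div_iff (by positivity)).2 (S52.sq_le_two_pow _ hk5)
  have hT1 : (1 : ℝ) ≤ T := by
    have : 1 ≤ T := by omega
    exact_mod_cast this
  have hX1 : (1 : ℝ) ≤ (T : ℝ) * Real.logb 2 V * (naF F : ℝ) :=
    one_le_mul_of_one_le_of_one_le (one_le_mul_of_one_le_of_one_le hT1 hS) ha
  have hwn : (w : ℝ) ≤ n := by
    have h1 := S52.wd_le r n
    have : w ≤ n := by omega
    exact_mod_cast this
  have hc3 : (1 : ℝ) ≤ 331776 * (r : ℝ) ^ 3 := by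
    have h1 : (1 : ℝ) ≤ (r : ℝ) ^ 3 := one_le_pow₀ hr1
    nlinarith
  have hc4 : (1 : ℝ) ≤ 4 ^ L0 := one_le_pow₀ (by norm_num)
  by_cases hL : Nat.log 2 n < L0
  · have h1 : n ≤ 2 ^ L0 := (Nat.lt_pow_succ_log_self (by norm_num) n).le.trans
      (Nat.pow_le_pow_right (by norm_num) (by omega))
    have h2 : (n : ℝ) ≤ 2 ^ L0 := by exact_mod_cast h1
    have h3 : (w : ℝ) * (n : ℝ) ^ (1 - 1 / (r : ℝ)) ≤ 4 ^ L0 := by
      have h4 : (n : ℝ) ^ (1 - 1 / (r : ℝ)) ≤ n := by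
        calc (n : ℝ) ^ (1 - 1 / (r : ℝ)) ≤ (n : ℝ) ^ (1 : ℝ) := by
              refine Real.rpow_le_rpow_of_exponent_le hn1 ?_
              have : 0 ≤ 1 / (r : ℝ) := by positivity
              linarith
          _ = n := Real.rpow_one _
      calc (w : ℝ) * (n : ℝ) ^ (1 - 1 / (r : ℝ)) ≤ 2 ^ L0 * 2 ^ L0 :=
            mul_le_mul (hwn.trans h2) (h4.trans h2) (by positivity) (by positivity)
        _ = 4 ^ L0 := by rw [← mul_pow]; norm_num
    rw [one_div_mul_eq_div]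
    refine le_trans ?_ hX1
    rw [div_le_one (by positivity)]
    calc (w : ℝ) * (n : ℝ) ^ (1 - 1 / (r : ℝ)) ≤ 4 ^ L0 := h3
      _ ≤ 331776 * (r : ℝ) ^ 3 * 4 ^ L0 := le_mul_of_one_le_left (by positivity) hc3
  -- large `n`
  have hL' : L0 ≤ Nat.log 2 n := by omega
  have hlog : n < 2 ^ (Nat.log 2 n + 1) := Nat.lt_pow_succ_log_self (by norm_num) n
  have hmod : r * (Nat.log 2 n / r) + Nat.log 2 n % r = Nat.log 2 n := Nat.div_add_mod _ _
  have hmodlt : Nat.log 2 n % r < r := Nat.mod_lt _ (by omega)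
  have hrr : 16 * r * r ≤ Nat.log 2 n := by
    have : 16 * r ^ 2 = 16 * r * r := by ring
    omega
  have hx : 16 * r ≤ Nat.log 2 n / r := (Nat.le_div_iff_mul_le (by omega)).2 hrr
  have hR2 : 2 ≤ 2 ^ (Nat.log 2 n / r) := by
    calc 2 = 2 ^ 1 := by norm_num
      _ ≤ _ := Nat.pow_le_pow_right (by norm_num) (by omega)
  have hk2 : kk n ^ 2 ≤ 2 * 2 ^ (Nat.log 2 n / r) := by
    have h1 := S52.grow r (Nat.log 2 n / r) hx
    have h2 : kk n ≤ r * (Nat.log 2 n / r + 1) := by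
      rw [Nat.mul_add, Nat.mul_one]
      unfold kk
      omega
    have h3 : kk n ^ 2 ≤ (r * (Nat.log 2 n / r + 1)) ^ 2 := Nat.pow_le_pow_left h2 2
    omega
  have hwLL : wd r n ≤ LL n := by
    unfold wd LL
    have hk0 : 0 < kk n ^ 2 := by
      have : 0 < kk n := by unfold kk; omega
      positivity
    have h1 : n ≤ 4 * 2 ^ kk n := by
      have h2 : 4 * 2 ^ kk n = 2 ^ (Nat.log 2 n + 1) := by
        rw [show (4 : ℕ) = 2 ^ 2 by norm_num, ← pow_add]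
        congr 1
        unfold kk
        omega
      omega
    calc n / (8 * 2 ^ (Nat.log 2 n / r)) ≤ (4 * 2 ^ kk n) / (8 * 2 ^ (Nat.log 2 n / r)) :=
          Nat.div_le_div_right h1
      _ = (4 * 2 ^ kk n) / (4 * (2 * 2 ^ (Nat.log 2 n / r))) := by
          congr 1
          ring
      _ = 2 ^ kk n / (2 * 2 ^ (Nat.log 2 n / r)) := Nat.mul_div_mul_left _ _ (by norm_num)
      _ ≤ 2 ^ kk n / kk n ^ 2 := Nat.div_le_div_left hk2 hk0
  obtain ⟨q, hq⟩ : ∃ q, q = Nat.log 2 n / (4 * r) := ⟨_, rfl⟩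
  have hmod4 : 4 * r * q + Nat.log 2 n % (4 * r) = Nat.log 2 n := by
    rw [hq]
    exact Nat.div_add_mod _ _
  have hmodlt4 : Nat.log 2 n % (4 * r) < 4 * r := Nat.mod_lt _ (by omega)
  have hq1 : 1 ≤ q := by
    rw [hq]
    exact (Nat.le_div_iff_mul_le (by omega)).2 (by omega)
  have hAB : Nat.log 2 n * Nat.log 2 n ≤ 16 * (r * r) * (Nat.log 2 n / r * q) := by
    have h1 : Nat.log 2 n ≤ 2 * (r * (Nat.log 2 n / r)) := by
      have h5 : 16 * r * r = 16 * (r * r) := by ring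
      have h6 : r ≤ r * r := Nat.le_mul_self r
      omega
    have h2 : Nat.log 2 n ≤ 2 * (4 * r * q) := by
      have h3 : 4 * r * 1 ≤ 4 * r * q := Nat.mul_le_mul_left _ hq1
      omega
    calc Nat.log 2 n * Nat.log 2 n ≤ (2 * (r * (Nat.log 2 n / r))) * (2 * (4 * r * q)) :=
          Nat.mul_le_mul h1 h2
      _ = 16 * (r * r) * (Nat.log 2 n / r * q) := by ring
  have hcard : F.card < (2 ^ (Nat.log 2 n / r)) ^ q := by
    have hn0 : (0 : ℝ) < n := by linarith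
    have hl0 : 0 ≤ Real.logb 2 n := Real.logb_nonneg (by norm_num) hn1
    have hl1 : Real.logb 2 n ≤ 2 * (Nat.log 2 n : ℝ) := by
      have h1 : Real.logb 2 n < (Nat.log 2 n : ℝ) + 1 := by
        rw [Real.logb_lt_iff_lt_rpow (by norm_num) hn0]
        have h2 : (n : ℝ) < 2 ^ (Nat.log 2 n + 1) := by exact_mod_cast hlog
        have h3 : (2 : ℝ) ^ ((Nat.log 2 n : ℝ) + 1) = 2 ^ (Nat.log 2 n + 1) := by
          rw [← Real.rpow_natCast]
          push_cast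
          rfl
        rw [h3]
        exact h2
      have h4 : (1 : ℝ) ≤ (Nat.log 2 n : ℝ) := by
        have : 1 ≤ Nat.log 2 n := by omega
        exact_mod_cast this
      linarith
    have hAB' : (Nat.log 2 n : ℝ) * (Nat.log 2 n : ℝ) ≤
        16 * ((r : ℝ) * r) * ((Nat.log 2 n / r * q : ℕ) : ℝ) := by exact_mod_cast hAB
    have hP : (1 : ℝ) ≤ ((Nat.log 2 n / r * q : ℕ) : ℝ) := by
      have h1 : 1 ≤ Nat.log 2 n / r := by omega
      have : 1 ≤ Nat.log 2 n / r * q := Nat.mul_le_mul h1 hq1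
      exact_mod_cast this
    obtain ⟨P, hPd⟩ : ∃ P : ℕ, P = Nat.log 2 n / r * q := ⟨_, rfl⟩
    rw [← hPd] at hAB' hP
    have hexp : Real.logb 2 n * (1 / (331776 * (r : ℝ) ^ 3 * 4 ^ L0) * Real.logb 2 n) < (P : ℝ) := by
      have h1 : Real.logb 2 n * Real.logb 2 n ≤ 64 * ((r : ℝ) * r) * P := by
        calc Real.logb 2 n * Real.logb 2 n ≤
              (2 * (Nat.log 2 n : ℝ)) * (2 * (Nat.log 2 n : ℝ)) :=
              mul_le_mul hl1 hl1 hl0 (by positivity)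
          _ = 4 * ((Nat.log 2 n : ℝ) * (Nat.log 2 n : ℝ)) := by ring
          _ ≤ 4 * (16 * ((r : ℝ) * r) * P) := by linarith
          _ = 64 * ((r : ℝ) * r) * P := by ring
      have h2 : 64 * ((r : ℝ) * r) < 331776 * (r : ℝ) ^ 3 * 4 ^ L0 := by
        have h3 : (r : ℝ) * r ≤ (r : ℝ) ^ 3 := by
          have : (r : ℝ) ^ 3 = r * r * r := by ring
          rw [this]
          exact le_mul_of_one_le_right (by positivity) hr1
        have h4 : (1 : ℝ) ≤ (r : ℝ) ^ 3 := one_le_pow₀ hr1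
        have h5 : 331776 * (r : ℝ) ^ 3 ≤ 331776 * (r : ℝ) ^ 3 * 4 ^ L0 :=
          le_mul_of_one_le_right (by positivity) hc4
        linarith
      have e : Real.logb 2 n * (1 / (331776 * (r : ℝ) ^ 3 * 4 ^ L0) * Real.logb 2 n) =
          (Real.logb 2 n * Real.logb 2 n) / (331776 * (r : ℝ) ^ 3 * 4 ^ L0) := by ring
      rw [e, div_lt_iff₀ (by positivity)]
      calc Real.logb 2 n * Real.logb 2 n ≤ 64 * ((r : ℝ) * r) * P := h1
        _ < (331776 * (r : ℝ) ^ 3 * 4 ^ L0) * P := mul_lt_mul_of_pos_right h2 (by linarith)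
        _ = P * (331776 * (r : ℝ) ^ 3 * 4 ^ L0) := by ring
    have h6 : (n : ℝ) ^ (1 / (331776 * (r : ℝ) ^ 3 * 4 ^ L0) * Real.logb 2 n) < 2 ^ P := by
      have e1 : (n : ℝ) = 2 ^ Real.logb 2 n :=
        (Real.rpow_logb (by norm_num) (by norm_num) hn0).symm
      calc (n : ℝ) ^ (1 / (331776 * (r : ℝ) ^ 3 * 4 ^ L0) * Real.logb 2 n) =
            ((2 : ℝ) ^ Real.logb 2 n) ^ (1 / (331776 * (r : ℝ) ^ 3 * 4 ^ L0) * Real.logb 2 n) := by
            rw [← e1]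
        _ = (2 : ℝ) ^ (Real.logb 2 n *
              (1 / (331776 * (r : ℝ) ^ 3 * 4 ^ L0) * Real.logb 2 n)) := by
            rw [← Real.rpow_mul (by norm_num)]
        _ < (2 : ℝ) ^ (P : ℝ) := Real.rpow_lt_rpow_of_exponent_lt (by norm_num) hexp
        _ = 2 ^ P := Real.rpow_natCast _ _
    have h7 : (F.card : ℝ) < 2 ^ P := lt_of_le_of_lt hFC h6
    have h8 : F.card < 2 ^ P := by exact_mod_cast h7
    rw [← pow_mul, ← hPd]
    exact h8
  have hmain := hF n V T w (2 ^ (Nat.log 2 n / r)) q B F hn hR2 hq1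
    (by
      have h1 : q * 1 ≤ q * (4 * r) := Nat.mul_le_mul_left _ (by omega)
      have h2 : 2 * q ≤ 4 * r * q := Nat.mul_le_mul_right _ (by omega)
      unfold kk
      omega) hcard hC hR (by
      intro X hXF
      have h1 := hX X hXF
      unfold wd at h1
      calc 8 * 2 ^ (Nat.log 2 n / r) * X.card ≤
            8 * 2 ^ (Nat.log 2 n / r) * (n / (8 * 2 ^ (Nat.log 2 n / r))) :=
            Nat.mul_le_mul_left _ h1
        _ ≤ n := Nat.mul_div_le _ _) hw1 (by omega) hV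
  have hlg := S52.log_cube_le (2 * r) n (by omega) (by omega)
  have hq4 : (4 : ℝ) ^ q ≤ (n : ℝ) ^ (1 / ((2 * r : ℕ) : ℝ)) := by
    have h1 : ((4 : ℝ) ^ q) ^ (2 * r) ≤ n := by
      have h2 : (4 ^ q) ^ (2 * r) ≤ n := by
        calc (4 ^ q) ^ (2 * r) = 2 ^ (4 * r * q) := by
              rw [← pow_mul, show (4 : ℕ) = 2 ^ 2 by norm_num, ← pow_mul]
              congr 1
              ring
          _ ≤ 2 ^ Nat.log 2 n := Nat.pow_le_pow_right (by norm_num) (by omega)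
          _ ≤ n := Nat.pow_log_le_self 2 (by omega)
      exact_mod_cast h2
    have h3 : (((4 : ℝ) ^ q) ^ (2 * r)) ^ (((2 * r : ℕ) : ℝ)⁻¹) = (4 : ℝ) ^ q :=
      Real.pow_rpow_inv_natCast (by positivity) (by omega)
    calc (4 : ℝ) ^ q = (((4 : ℝ) ^ q) ^ (2 * r)) ^ (((2 * r : ℕ) : ℝ)⁻¹) := h3.symm
      _ ≤ (n : ℝ) ^ (((2 * r : ℕ) : ℝ)⁻¹) :=
          Real.rpow_le_rpow (by positivity) h1 (by positivity)
      _ = (n : ℝ) ^ (1 / ((2 * r : ℕ) : ℝ)) := by rw [one_div]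
  have hhalf : (n : ℝ) ^ (1 / ((2 * r : ℕ) : ℝ)) * (n : ℝ) ^ (1 / ((2 * r : ℕ) : ℝ)) =
      (n : ℝ) ^ (1 / (r : ℝ)) := by
    rw [← Real.rpow_add (by linarith)]
    congr 1
    push_cast
    field_simp
    norm_num
  have hcomb : (4 : ℝ) ^ q * Real.logb 2 n ^ 3 ≤ 1728 * (r : ℝ) ^ 3 * (n : ℝ) ^ (1 / (r : ℝ)) := by
    have hl0 : 0 ≤ Real.logb 2 n := Real.logb_nonneg (by norm_num) hn1
    calc (4 : ℝ) ^ q * Real.logb 2 n ^ 3 ≤ (n : ℝ) ^ (1 / ((2 * r : ℕ) : ℝ)) *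
          (216 * ((2 * r : ℕ) : ℝ) ^ 3 * (n : ℝ) ^ (1 / ((2 * r : ℕ) : ℝ))) :=
          mul_le_mul hq4 hlg (by positivity) (by positivity)
      _ = 216 * ((2 * r : ℕ) : ℝ) ^ 3 * ((n : ℝ) ^ (1 / ((2 * r : ℕ) : ℝ)) *
            (n : ℝ) ^ (1 / ((2 * r : ℕ) : ℝ))) := by ring
      _ = 1728 * (r : ℝ) ^ 3 * (n : ℝ) ^ (1 / (r : ℝ)) := by
          rw [hhalf]
          push_cast
          ring
  obtain ⟨X, hXd⟩ : ∃ X, X = (T : ℝ) * Real.logb 2 V * (naF F : ℝ) := ⟨_, rfl⟩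
  rw [← hXd] at hmain hX1 ⊢
  have hX0 : 0 ≤ X := by linarith
  have hp : (n : ℝ) ^ (1 / (r : ℝ)) * (n : ℝ) ^ (1 - 1 / (r : ℝ)) = (n : ℝ) := by
    rw [← Real.rpow_add (by linarith)]
    have e : 1 / (r : ℝ) + (1 - 1 / (r : ℝ)) = 1 := by ring
    rw [e, Real.rpow_one]
  have hpos : (0 : ℝ) < (n : ℝ) ^ (1 / (r : ℝ)) := Real.rpow_pos_of_pos (by linarith) _
  have h5 : (n : ℝ) * w ≤ 192 * X * (1728 * (r : ℝ) ^ 3 * (n : ℝ) ^ (1 / (r : ℝ))) :=
    hmain.trans (mul_le_mul_of_nonneg_left hcomb (by positivity))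
  have h6 : (w : ℝ) * (n : ℝ) ^ (1 - 1 / (r : ℝ)) ≤ (331776 * (r : ℝ) ^ 3) * X := by
    refine le_of_mul_le_mul_left ?_ hpos
    calc (n : ℝ) ^ (1 / (r : ℝ)) * ((w : ℝ) * (n : ℝ) ^ (1 - 1 / (r : ℝ))) =
          ((n : ℝ) ^ (1 / (r : ℝ)) * (n : ℝ) ^ (1 - 1 / (r : ℝ))) * w := by ring
      _ = n * w := by rw [hp]
      _ ≤ _ := h5
      _ = _ := by ring
  rw [one_div_mul_eq_div, div_le_iff₀ (by positivity)]
  calc (w : ℝ) * (n : ℝ) ^ (1 - 1 / (r : ℝ)) ≤ (331776 * (r : ℝ) ^ 3) * X := h6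
    _ ≤ (331776 * (r : ℝ) ^ 3) * X * 4 ^ L0 := le_mul_of_one_le_right (by positivity) hc4
    _ = X * (331776 * (r : ℝ) ^ 3 * 4 ^ L0) := by ring

end Pool.Helper52.BP
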