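import Pool.Agent.Helper52.BP.FINA2

/-! # Row FINA4 of the project BP (MP_de6334_lc): sets of linear size, windows of any length -/

set_option autoImplicit false

namespace Pool.Helper52.BP

open Finset

/-- as `ST_FINA2`, for windows of any length `w ≤ T` and families of at most `n ^ (c log R)` sets of
at most `n / (8 R)` variables -/
def ST_FINA4 : Prop := ∀ r : ℕ, 2 ≤ r → ∃ c : ℝ, 0 < c ∧ ∀ (n V T w R : ℕ) (B : BP n V)
  (F : Finset (Finset (Fin n))), 64 ≤ n → 2 ≤ R → Comp B T (f n) → 1 ≤ w → w ≤ T →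
  ReadsA B T w F → (∀ X ∈ F, 8 * R * X.card ≤ n) →
  (F.card : ℝ) ≤ (n : ℝ) ^ (c * Real.logb 2 R) →
  c * ((w : ℝ) * (n : ℝ) ^ (1 - 1 / (r : ℝ))) ≤ (T : ℝ) * Real.logb 2 V * (naF F : ℝ)

theorem st_FINA4 (hF : ST_FIN12) (hTW : ST_TW2) : ST_FINA4 := by
  intro r hr
  have hr0 : (0 : ℝ) < r := by
    have : 0 < r := by omega
    exact_mod_cast this
  have hr1 : (1 : ℝ) ≤ r := by
    have : 1 ≤ r := by omega
    exact_mod_cast this
  refine ⟨1 / (331776 * (r : ℝ) ^ 3 * 2 ^ (4 * r)), by positivity, ?_⟩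
  intro n V T w R B F hn hR2 hC hw1 hwT hRd hX hFC
  have hn1 : (1 : ℝ) ≤ n := by
    have : 1 ≤ n := by omega
    exact_mod_cast this
  have hn0 : (0 : ℝ) < n := by linarith
  obtain ⟨-, hV⟩ := hTW n V T B hn hC
  have hS := S52.one_le_logb V hV
  have ha : (1 : ℝ) ≤ (naF F : ℝ) := by
    exact_mod_cast S52.one_le_naF F (by omega)
  have hL6 : 6 ≤ Nat.log 2 n := Nat.le_log_of_pow_le (by norm_num) (by norm_num; omega)
  have hwTr : (w : ℝ) ≤ T := by exact_mod_cast hwT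
  have hT0 : (0 : ℝ) ≤ T := Nat.cast_nonneg _
  have hw0 : (0 : ℝ) ≤ w := Nat.cast_nonneg _
  have hX1 : (w : ℝ) ≤ (T : ℝ) * Real.logb 2 V * (naF F : ℝ) := by
    calc (w : ℝ) ≤ T := hwTr
      _ ≤ (T : ℝ) * Real.logb 2 V := le_mul_of_one_le_right hT0 hS
      _ ≤ (T : ℝ) * Real.logb 2 V * (naF F : ℝ) :=
          le_mul_of_one_le_right (mul_nonneg hT0 (by linarith)) ha
  have hc3 : (1 : ℝ) ≤ 331776 * (r : ℝ) ^ 3 := by
    have h1 : (1 : ℝ) ≤ (r : ℝ) ^ 3 := one_le_pow₀ hr1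
    nlinarith
  have hc4 : (1 : ℝ) ≤ 2 ^ (4 * r) := one_le_pow₀ (by norm_num)
  by_cases hL : Nat.log 2 n < 4 * r
  · have h1 : n ≤ 2 ^ (4 * r) := (Nat.lt_pow_succ_log_self (by norm_num) n).le.trans
      (Nat.pow_le_pow_right (by norm_num) (by omega))
    have h2 : (n : ℝ) ≤ 2 ^ (4 * r) := by exact_mod_cast h1
    have h4 : (n : ℝ) ^ (1 - 1 / (r : ℝ)) ≤ 2 ^ (4 * r) := by
      calc (n : ℝ) ^ (1 - 1 / (r : ℝ)) ≤ (n : ℝ) ^ (1 : ℝ) := by
            refine Real.rpow_le_rpow_of_exponent_le hn1 ?_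
            have : 0 ≤ 1 / (r : ℝ) := by positivity
            linarith
        _ = n := Real.rpow_one _
        _ ≤ _ := h2
    rw [one_div_mul_eq_div]
    refine le_trans ?_ hX1
    rw [div_le_iff₀ (by positivity)]
    calc (w : ℝ) * (n : ℝ) ^ (1 - 1 / (r : ℝ)) ≤ w * 2 ^ (4 * r) :=
          mul_le_mul_of_nonneg_left h4 hw0
      _ ≤ w * (331776 * (r : ℝ) ^ 3 * 2 ^ (4 * r)) :=
          mul_le_mul_of_nonneg_left (le_mul_of_one_le_left (by positivity) hc3) hw0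
  -- large `n`
  have hL' : 4 * r ≤ Nat.log 2 n := by omega
  have hlog : n < 2 ^ (Nat.log 2 n + 1) := Nat.lt_pow_succ_log_self (by norm_num) n
  obtain ⟨q, hq⟩ : ∃ q, q = Nat.log 2 n / (4 * r) := ⟨_, rfl⟩
  have hmod4 : 4 * r * q + Nat.log 2 n % (4 * r) = Nat.log 2 n := by
    rw [hq]
    exact Nat.div_add_mod _ _
  have hmodlt4 : Nat.log 2 n % (4 * r) < 4 * r := Nat.mod_lt _ (by omega)
  have hq1 : 1 ≤ q := by
    rw [hq]
    exact (Nat.le_div_iff_mul_le (by omega)).2 (by omega)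
  have hLq : Nat.log 2 n ≤ 2 * (4 * r * q) := by
    have h3 : 4 * r * 1 ≤ 4 * r * q := Nat.mul_le_mul_left _ hq1
    omega
  have hR2r : (2 : ℝ) ≤ R := by exact_mod_cast hR2
  have hlR : 1 ≤ Real.logb 2 R := S52.one_le_logb R hR2
  have hq0 : (1 : ℝ) ≤ q := by exact_mod_cast hq1
  have hcard : F.card < R ^ q := by
    have hl0 : 0 ≤ Real.logb 2 n := Real.logb_nonneg (by norm_num) hn1
    have hl1 : Real.logb 2 n ≤ 2 * (Nat.log 2 n : ℝ) := by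
      have h1 : Real.logb 2 n < (Nat.log 2 n : ℝ) + 1 := by
        rw [Real.logb_lt_iff_lt_rpow (by norm_num) hn0]
        have h2 : (n : ℝ) < 2 ^ (Nat.log 2 n + 1) := by exact_mod_cast hlog
        have h3 : (2 : ℝ) ^ ((Nat.log 2 n : ℝ) + 1) = 2 ^ (Nat.log 2 n + 1) := by
          rw [← Real.rpow_natCast]
          push_cast
          rfl
        rw [h3]
        exact h2
      have h4 : (1 : ℝ) ≤ (Nat.log 2 n : ℝ) := by
        have : 1 ≤ Nat.log 2 n := by omega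
        exact_mod_cast this
      linarith
    have hl2 : Real.logb 2 n ≤ 16 * r * q := by
      have h5 : (Nat.log 2 n : ℝ) ≤ 2 * (4 * r * q) := by exact_mod_cast hLq
      linarith
    have hexp : Real.logb 2 n * (1 / (331776 * (r : ℝ) ^ 3 * 2 ^ (4 * r)) * Real.logb 2 R) <
        Real.logb 2 R * (q : ℝ) := by
      have h2 : 16 * (r : ℝ) < 331776 * (r : ℝ) ^ 3 * 2 ^ (4 * r) := by
        have h3 : (r : ℝ) ≤ (r : ℝ) ^ 3 := by
          have : (r : ℝ) ^ 3 = r * (r * r) := by ring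
          rw [this]
          exact le_mul_of_one_le_right (by positivity) (one_le_mul_of_one_le_of_one_le hr1 hr1)
        have h5 : 331776 * (r : ℝ) ^ 3 ≤ 331776 * (r : ℝ) ^ 3 * 2 ^ (4 * r) :=
          le_mul_of_one_le_right (by positivity) hc4
        linarith
      have h6 : Real.logb 2 n / (331776 * (r : ℝ) ^ 3 * 2 ^ (4 * r)) < q := by
        rw [div_lt_iff₀ (by positivity)]
        calc Real.logb 2 n ≤ 16 * r * q := hl2
          _ < (331776 * (r : ℝ) ^ 3 * 2 ^ (4 * r)) * q :=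
              mul_lt_mul_of_pos_right h2 (by linarith)
          _ = q * (331776 * (r : ℝ) ^ 3 * 2 ^ (4 * r)) := by ring
      have e : Real.logb 2 n * (1 / (331776 * (r : ℝ) ^ 3 * 2 ^ (4 * r)) * Real.logb 2 R) =
          Real.logb 2 R * (Real.logb 2 n / (331776 * (r : ℝ) ^ 3 * 2 ^ (4 * r))) := by ring
      rw [e]
      exact mul_lt_mul_of_pos_left h6 (by linarith)
    have h6 : (n : ℝ) ^ (1 / (331776 * (r : ℝ) ^ 3 * 2 ^ (4 * r)) * Real.logb 2 R) <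
        (R : ℝ) ^ q := by
      have e1 : (n : ℝ) = 2 ^ Real.logb 2 n :=
        (Real.rpow_logb (by norm_num) (by norm_num) hn0).symm
      have e2 : (R : ℝ) = 2 ^ Real.logb 2 R :=
        (Real.rpow_logb (by norm_num) (by norm_num) (by linarith)).symm
      calc (n : ℝ) ^ (1 / (331776 * (r : ℝ) ^ 3 * 2 ^ (4 * r)) * Real.logb 2 R) =
            ((2 : ℝ) ^ Real.logb 2 n) ^
              (1 / (331776 * (r : ℝ) ^ 3 * 2 ^ (4 * r)) * Real.logb 2 R) := by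
            rw [← e1]
        _ = (2 : ℝ) ^ (Real.logb 2 n *
              (1 / (331776 * (r : ℝ) ^ 3 * 2 ^ (4 * r)) * Real.logb 2 R)) := by
            rw [← Real.rpow_mul (by norm_num)]
        _ < (2 : ℝ) ^ (Real.logb 2 R * (q : ℝ)) :=
            Real.rpow_lt_rpow_of_exponent_lt (by norm_num) hexp
        _ = ((2 : ℝ) ^ Real.logb 2 R) ^ (q : ℝ) := by rw [Real.rpow_mul (by norm_num)]
        _ = (R : ℝ) ^ (q : ℝ) := by rw [← e2]
        _ = (R : ℝ) ^ q := Real.rpow_natCast _ _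
    have h7 : (F.card : ℝ) < (R : ℝ) ^ q := lt_of_le_of_lt hFC h6
    exact_mod_cast h7
  have hmain := hF n V T w R q B F hn hR2 hq1
    (by
      have h2 : 2 * q ≤ 4 * r * q := Nat.mul_le_mul_right _ (by omega)
      unfold kk
      omega) hcard hC hRd hX hw1 hwT hV
  have hlg := S52.log_cube_le (2 * r) n (by omega) (by omega)
  have hq4 : (4 : ℝ) ^ q ≤ (n : ℝ) ^ (1 / ((2 * r : ℕ) : ℝ)) := by
    have h1 : ((4 : ℝ) ^ q) ^ (2 * r) ≤ n := by
      have h2 : (4 ^ q) ^ (2 * r) ≤ n := by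
        calc (4 ^ q) ^ (2 * r) = 2 ^ (4 * r * q) := by
              rw [← pow_mul, show (4 : ℕ) = 2 ^ 2 by norm_num, ← pow_mul]
              congr 1
              ring
          _ ≤ 2 ^ Nat.log 2 n := Nat.pow_le_pow_right (by norm_num) (by omega)
          _ ≤ n := Nat.pow_log_le_self 2 (by omega)
      exact_mod_cast h2
    have h3 : (((4 : ℝ) ^ q) ^ (2 * r)) ^ (((2 * r : ℕ) : ℝ)⁻¹) = (4 : ℝ) ^ q :=
      Real.pow_rpow_inv_natCast (by positivity) (by omega)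
    calc (4 : ℝ) ^ q = (((4 : ℝ) ^ q) ^ (2 * r)) ^ (((2 * r : ℕ) : ℝ)⁻¹) := h3.symm
      _ ≤ (n : ℝ) ^ (((2 * r : ℕ) : ℝ)⁻¹) :=
          Real.rpow_le_rpow (by positivity) h1 (by positivity)
      _ = (n : ℝ) ^ (1 / ((2 * r : ℕ) : ℝ)) := by rw [one_div]
  have hhalf : (n : ℝ) ^ (1 / ((2 * r : ℕ) : ℝ)) * (n : ℝ) ^ (1 / ((2 * r : ℕ) : ℝ)) =
      (n : ℝ) ^ (1 / (r : ℝ)) := by
    rw [← Real.rpow_add (by linarith)]
    congr 1
    push_cast
    field_simp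
    norm_num
  have hcomb : (4 : ℝ) ^ q * Real.logb 2 n ^ 3 ≤ 1728 * (r : ℝ) ^ 3 * (n : ℝ) ^ (1 / (r : ℝ)) := by
    have hl0 : 0 ≤ Real.logb 2 n := Real.logb_nonneg (by norm_num) hn1
    calc (4 : ℝ) ^ q * Real.logb 2 n ^ 3 ≤ (n : ℝ) ^ (1 / ((2 * r : ℕ) : ℝ)) *
          (216 * ((2 * r : ℕ) : ℝ) ^ 3 * (n : ℝ) ^ (1 / ((2 * r : ℕ) : ℝ))) :=
          mul_le_mul hq4 hlg (by positivity) (by positivity)
      _ = 216 * ((2 * r : ℕ) : ℝ) ^ 3 * ((n : ℝ) ^ (1 / ((2 * r : ℕ) : ℝ)) *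
            (n : ℝ) ^ (1 / ((2 * r : ℕ) : ℝ))) := by ring
      _ = 1728 * (r : ℝ) ^ 3 * (n : ℝ) ^ (1 / (r : ℝ)) := by
          rw [hhalf]
          push_cast
          ring
  obtain ⟨X, hXd⟩ : ∃ X, X = (T : ℝ) * Real.logb 2 V * (naF F : ℝ) := ⟨_, rfl⟩
  rw [← hXd] at hmain hX1 ⊢
  have hX0 : 0 ≤ X := by linarith
  have hp : (n : ℝ) ^ (1 / (r : ℝ)) * (n : ℝ) ^ (1 - 1 / (r : ℝ)) = (n : ℝ) := by
    rw [← Real.rpow_add (by linarith)]
    have e : 1 / (r : ℝ) + (1 - 1 / (r : ℝ)) = 1 := by ring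
    rw [e, Real.rpow_one]
  have hpos : (0 : ℝ) < (n : ℝ) ^ (1 / (r : ℝ)) := Real.rpow_pos_of_pos (by linarith) _
  have h5 : (n : ℝ) * w ≤ 192 * X * (1728 * (r : ℝ) ^ 3 * (n : ℝ) ^ (1 / (r : ℝ))) :=
    hmain.trans (mul_le_mul_of_nonneg_left hcomb (by positivity))
  have h6 : (w : ℝ) * (n : ℝ) ^ (1 - 1 / (r : ℝ)) ≤ (331776 * (r : ℝ) ^ 3) * X := by
    refine le_of_mul_le_mul_left ?_ hpos
    calc (n : ℝ) ^ (1 / (r : ℝ)) * ((w : ℝ) * (n : ℝ) ^ (1 - 1 / (r : ℝ))) =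
          ((n : ℝ) ^ (1 / (r : ℝ)) * (n : ℝ) ^ (1 - 1 / (r : ℝ))) * w := by ring
      _ = n * w := by rw [hp]
      _ ≤ _ := h5
      _ = _ := by ring
  rw [one_div_mul_eq_div, div_le_iff₀ (by positivity)]
  calc (w : ℝ) * (n : ℝ) ^ (1 - 1 / (r : ℝ)) ≤ (331776 * (r : ℝ) ^ 3) * X := h6
    _ ≤ (331776 * (r : ℝ) ^ 3) * X * 2 ^ (4 * r) := le_mul_of_one_le_right (by positivity) hc4
    _ = X * (331776 * (r : ℝ) ^ 3 * 2 ^ (4 * r)) := by ring

end Pool.Helper52.BP
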