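import Pool.Agent.Helper52.BP.FINA4
import Pool.Agent.Helper33.BP.ATOM
import Pool.Agent.Helper92.BP.VCA

/-! # Row FIND of the project BP (MP_de6334_lc): windows of any length and bounded dimension -/

set_option autoImplicit false

namespace Pool.Helper52.BP

open Finset

/-- Windows of any length, sets of at most `c n` variables, dimension at most `d`. -/
def ST_FIND : Prop := ∀ d r : ℕ, 2 ≤ r → ∃ c : ℝ, 0 < c ∧ ∀ (n V T w : ℕ) (B : BP n V)
  (W : ℕ → Finset (Fin n)), 64 ≤ n → Comp B T (f n) → 1 ≤ w → w ≤ T → Reads B T w W →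
  (∀ i, ((W i).card : ℝ) ≤ c * n) → ¬ Indep W (T / w + 1) (d + 1) →
  c * ((w : ℝ) * (n : ℝ) ^ ((1 - 1 / (r : ℝ)) / ((d : ℝ) + 1))) ≤ (T : ℝ) * Real.logb 2 V

theorem st_FIND (hF : ST_FINA4) (hV : ST_VCA) (hTW : ST_TW2) : ST_FIND := by
  classical
  intro d r hr
  obtain ⟨c0, hc0, hmain⟩ := hF r hr
  have hr1 : (2 : ℝ) ≤ r := by exact_mod_cast hr
  obtain ⟨k, hk⟩ : ∃ k, k = ⌈1 / c0⌉₊ + 1 := ⟨_, rfl⟩
  have hk1 : 1 ≤ k := by omega
  have hck : 1 ≤ c0 * k := by
    have h1 : 1 / c0 ≤ (k : ℝ) := by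
      have h2 := Nat.le_ceil (1 / c0)
      rw [hk]
      push_cast
      linarith
    rw [div_le_iff₀ hc0] at h1
    linarith
  obtain ⟨c, hcd⟩ : ∃ c : ℝ, c = min (min 1 (c0 / 3 ^ d)) (1 / (8 * 2 ^ k)) := ⟨_, rfl⟩
  have hc : 0 < c := by
    rw [hcd]
    exact lt_min (lt_min one_pos (by positivity)) (by positivity)
  have hc1 : c ≤ 1 := by rw [hcd]; exact (min_le_left _ _).trans (min_le_left _ _)
  have hc2 : c ≤ c0 / 3 ^ d := by rw [hcd]; exact (min_le_left _ _).trans (min_le_right _ _)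
  have hc3 : c ≤ 1 / (8 * 2 ^ k) := by rw [hcd]; exact min_le_right _ _
  refine ⟨c, hc, ?_⟩
  intro n V T w B W hn hC hw1 hwT hR hW hI
  obtain ⟨-, hV2⟩ := hTW n V T B hn hC
  have hS := S52.one_le_logb V hV2
  have hn1 : (1 : ℝ) ≤ n := by
    have : 1 ≤ n := by omega
    exact_mod_cast this
  have hw0 : (0 : ℝ) < w := by exact_mod_cast hw1
  have hwTr : (w : ℝ) ≤ T := by exact_mod_cast hwT
  have hT0 : (0 : ℝ) < T := by linarith
  have he0 : 0 ≤ 1 - 1 / (r : ℝ) := by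
    have : 1 / (r : ℝ) ≤ 1 := by
      rw [div_le_one (by linarith)]
      linarith
    linarith
  have he1 : 1 - 1 / (r : ℝ) ≤ 1 := by
    have : 0 ≤ 1 / (r : ℝ) := by positivity
    linarith
  have hd0 : (0 : ℝ) ≤ d := Nat.cast_nonneg _
  have hed : (1 - 1 / (r : ℝ)) / ((d : ℝ) + 1) ≤ 1 := by
    rw [div_le_one (by linarith)]
    linarith
  have hTS : (T : ℝ) ≤ T * Real.logb 2 V := le_mul_of_one_le_right hT0.le hS
  by_cases hM : n < T / w + 1
  · -- many windows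
    have h1 : n * w ≤ T := by
      have h2 : n ≤ T / w := by omega
      exact (Nat.le_div_iff_mul_le (by omega)).1 h2
    have h2 : (n : ℝ) * w ≤ T := by exact_mod_cast h1
    have h3 : (n : ℝ) ^ ((1 - 1 / (r : ℝ)) / ((d : ℝ) + 1)) ≤ n := by
      calc (n : ℝ) ^ ((1 - 1 / (r : ℝ)) / ((d : ℝ) + 1)) ≤ (n : ℝ) ^ (1 : ℝ) :=
            Real.rpow_le_rpow_of_exponent_le hn1 hed
        _ = n := Real.rpow_one _
    calc c * ((w : ℝ) * (n : ℝ) ^ ((1 - 1 / (r : ℝ)) / ((d : ℝ) + 1))) ≤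
          1 * ((w : ℝ) * (n : ℝ) ^ ((1 - 1 / (r : ℝ)) / ((d : ℝ) + 1))) :=
          mul_le_mul_of_nonneg_right hc1 (by positivity)
      _ = (w : ℝ) * (n : ℝ) ^ ((1 - 1 / (r : ℝ)) / ((d : ℝ) + 1)) := one_mul _
      _ ≤ (w : ℝ) * n := mul_le_mul_of_nonneg_left h3 hw0.le
      _ = n * w := mul_comm _ _
      _ ≤ T := h2
      _ ≤ T * Real.logb 2 V := hTS
  -- at most `n` windows
  obtain ⟨m, hm⟩ : ∃ m, m = T / w + 1 := ⟨_, rfl⟩
  rw [← hm] at hM hI
  obtain ⟨F, hFd⟩ : ∃ F, F = (range m).image W := ⟨_, rfl⟩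
  have hFc : F.card ≤ m := by
    rw [hFd]
    exact card_image_le.trans_eq (card_range m)
  have hFne : ∃ X, X ∈ F := ⟨W 0, by
    rw [hFd]
    exact mem_image_of_mem _ (mem_range.2 (by rw [hm]; exact Nat.succ_pos _))⟩
  have hRA : ReadsA B T w F := by
    intro z i
    by_cases hi : i < m
    · refine ⟨W i, ?_, ?_⟩
      · rw [hFd]
        exact mem_image_of_mem _ (mem_range.2 hi)
      · intro t x ht hti hx
        have := hR z t x ht hx
        rw [hti] at this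
        exact this
    · obtain ⟨X, hX⟩ := hFne
      refine ⟨X, hX, ?_⟩
      intro t x ht hti hx
      exfalso
      have h1 : t / w ≤ T / w := Nat.div_le_div_right ht.le
      omega
  have hsize : ∀ X ∈ F, 8 * 2 ^ k * X.card ≤ n := by
    intro X hX
    rw [hFd, mem_image] at hX
    obtain ⟨i, -, rfl⟩ := hX
    have h1 : ((W i).card : ℝ) ≤ 1 / (8 * 2 ^ k) * n :=
      (hW i).trans (mul_le_mul_of_nonneg_right hc3 (by linarith))
    rw [one_div_mul_eq_div, le_div_iff₀ (by positivity)] at h1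
    have h2 : ((8 * 2 ^ k * (W i).card : ℕ) : ℝ) ≤ (n : ℝ) := by
      push_cast
      linarith
    exact_mod_cast h2
  have hl2 : Real.logb 2 ((2 ^ k : ℕ) : ℝ) = k := by
    push_cast
    rw [← Real.rpow_natCast]
    exact Real.logb_rpow (by norm_num) (by norm_num)
  have hFn : (F.card : ℝ) ≤ (n : ℝ) ^ (c0 * Real.logb 2 ((2 ^ k : ℕ) : ℝ)) := by
    rw [hl2]
    have h1 : (F.card : ℝ) ≤ n := by
      have : F.card ≤ n := by omega
      exact_mod_cast this
    calc (F.card : ℝ) ≤ n := h1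
      _ = (n : ℝ) ^ (1 : ℝ) := (Real.rpow_one _).symm
      _ ≤ (n : ℝ) ^ (c0 * (k : ℝ)) := Real.rpow_le_rpow_of_exponent_le hn1 hck
  have hR2 : 2 ≤ 2 ^ k := by
    calc 2 = 2 ^ 1 := by norm_num
      _ ≤ 2 ^ k := Nat.pow_le_pow_right (by norm_num) hk1
  have hB := hmain n V T w (2 ^ k) B F hn hR2 hC hw1 hwT hRA hsize hFn
  -- the number of atoms
  have hat : naF F ≤ (m + 1) ^ d := by
    have h1 : naF F ≤ na W m := by
      rw [hFd]
      exact S33.naF_le W m
    have h2 := hV n m d W hI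
    have h3 : nw W m ≤ m := by
      unfold nw
      exact card_image_le.trans_eq (card_range m)
    exact h1.trans (h2.trans (Nat.pow_le_pow_left (by omega) d))
  have hm3 : ((m : ℝ) + 1) * w ≤ 3 * T := by
    have h1 : (T / w) * w ≤ T := Nat.div_mul_le_self T w
    have h2 : (m + 1) * w ≤ 3 * T := by
      rw [hm]
      calc (T / w + 1 + 1) * w = T / w * w + 2 * w := by ring
        _ ≤ 3 * T := by omega
    exact_mod_cast h2
  have hat' : (naF F : ℝ) ≤ ((m : ℝ) + 1) ^ d := by exact_mod_cast hat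
  obtain ⟨E, hE⟩ : ∃ E : ℝ, E = (n : ℝ) ^ (1 - 1 / (r : ℝ)) := ⟨_, rfl⟩
  rw [← hE] at hB
  have hE0 : 0 < E := by
    rw [hE]
    exact Real.rpow_pos_of_pos (by linarith) _
  have hS0 : 0 < Real.logb 2 V := by linarith
  have h10 : c0 * (w * E) * (w : ℝ) ^ d ≤ T * Real.logb 2 V * (3 * T) ^ d := by
    calc c0 * (w * E) * (w : ℝ) ^ d ≤ T * Real.logb 2 V * (naF F : ℝ) * (w : ℝ) ^ d :=
          mul_le_mul_of_nonneg_right hB (by positivity)
      _ ≤ T * Real.logb 2 V * ((m : ℝ) + 1) ^ d * (w : ℝ) ^ d :=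
          mul_le_mul_of_nonneg_right (mul_le_mul_of_nonneg_left hat' (by positivity))
            (by positivity)
      _ = T * Real.logb 2 V * (((m : ℝ) + 1) * w) ^ d := by
          rw [mul_pow]
          ring
      _ ≤ T * Real.logb 2 V * (3 * T) ^ d :=
          mul_le_mul_of_nonneg_left (pow_le_pow_left₀ (by positivity) hm3 d) (by positivity)
  have h11 : (c * ((w : ℝ) * (n : ℝ) ^ ((1 - 1 / (r : ℝ)) / ((d : ℝ) + 1)))) ^ (d + 1) ≤
      (T * Real.logb 2 V) ^ (d + 1) := by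
    have e1 : ((n : ℝ) ^ ((1 - 1 / (r : ℝ)) / ((d : ℝ) + 1))) ^ (d + 1) = E := by
      rw [hE, ← Real.rpow_natCast, ← Real.rpow_mul (by linarith)]
      congr 1
      push_cast
      field_simp
    have e2 : c ^ (d + 1) ≤ c0 / 3 ^ d := by
      calc c ^ (d + 1) ≤ c ^ 1 := pow_le_pow_of_le_one hc.le hc1 (by omega)
        _ = c := pow_one c
        _ ≤ _ := hc2
    calc (c * ((w : ℝ) * (n : ℝ) ^ ((1 - 1 / (r : ℝ)) / ((d : ℝ) + 1)))) ^ (d + 1) =
          c ^ (d + 1) * ((w : ℝ) ^ (d + 1) * E) := by rw [mul_pow, mul_pow, e1]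
      _ ≤ c0 / 3 ^ d * ((w : ℝ) ^ (d + 1) * E) :=
          mul_le_mul_of_nonneg_right e2 (by positivity)
      _ = (c0 * (w * E) * (w : ℝ) ^ d) / 3 ^ d := by
          rw [pow_succ]
          ring
      _ ≤ (T * Real.logb 2 V * (3 * T) ^ d) / 3 ^ d :=
          div_le_div_of_nonneg_right h10 (by positivity)
      _ = T ^ (d + 1) * Real.logb 2 V := by
          rw [mul_pow, pow_succ]
          field_simp
      _ ≤ T ^ (d + 1) * Real.logb 2 V ^ (d + 1) := by
          refine mul_le_mul_of_nonneg_left ?_ (by positivity)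
          calc Real.logb 2 V = Real.logb 2 V ^ 1 := (pow_one _).symm
            _ ≤ Real.logb 2 V ^ (d + 1) := pow_le_pow_right₀ hS (by omega)
      _ = (T * Real.logb 2 V) ^ (d + 1) := (mul_pow _ _ _).symm
  exact le_of_pow_le_pow_left₀ (by omega) (by positivity) h11

end Pool.Helper52.BP
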