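import Pool.Agent.Helper49.BP.TW2

/-! # Row TW of the project BP (`MP_de6334_lc`) -/

set_option autoImplicit false

namespace Pool.Helper52.BP

open Finset

open S49 in
theorem st_TW (hE : ST_EMB) : ST_TW := by
  classical
  intro n V T w B W hn hw hwn hB hR hW
  obtain ⟨hk, hN⟩ := emb_log hn
  have hpos := LL_pos hn
  have hN4 : n < 4 * 2 ^ kk n := by
    have h1 := Nat.lt_pow_succ_log_self (b := 2) (by norm_num) n
    have h2 : Nat.log 2 n = kk n + 1 := by unfold kk at *; omega
    rw [h2] at h1
    calc n < 2 ^ (kk n + 1 + 1) := h1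
      _ = 4 * 2 ^ kk n := by ring
  -- an argument outside `W 0`
  obtain ⟨v0, hv0, hv1⟩ : ∃ v0 : Fin n, (v0 : ℕ) < 2 ^ kk n ∧ v0 ∉ W 0 := by
    by_contra hcon
    push Not at hcon
    have h1 : (univ.filter fun v : Fin n => (v : ℕ) < 2 ^ kk n) ⊆ W 0 := by
      intro v hv
      exact hcon v (mem_filter.1 hv).2
    have h2 : (univ.filter fun v : Fin n => (v : ℕ) < 2 ^ kk n).card = 2 ^ kk n := by
      rw [Fin.card_filter_val_lt]
      omega
    have h3 := card_le_card h1
    rw [h2] at h3
    have h4 := hW 0
    omega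
  obtain ⟨io, hio1, hio2⟩ := hE n 1 1 (fun _ => v0) hn le_rfl (by omega) hpos
    (by
      have : 2 ^ 5 ≤ 2 ^ kk n := Nat.pow_le_pow_right (by norm_num) hk
      omega) (by
      intro p p' _
      exact Prod.ext (Subsingleton.elim _ _) (Subsingleton.elim _ _)) (by
      intro p
      exact hv0)
  let u1 : Fin 1 → Fin 1 → Bool := fun _ _ => true
  let u2 : Fin 1 → Fin 1 → Bool := fun _ _ => false
  have o1 : ones u1 = 1 := by
    unfold ones
    rw [filter_true_of_mem, card_univ, Fintype.card_fin]
    intro l _ j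
    rfl
  have o2 : ones u2 = 0 := by
    unfold ones
    rw [card_eq_zero, filter_eq_empty_iff]
    intro l _ h
    have := h 0
    simp [u2] at this
  have hne : f n (io u1) ≠ f n (io u2) := by
    intro h
    rw [hio2, hio2, o1, o2, decide_eq_decide] at h
    omega
  have hagree : ∀ x, x ≠ v0 → io u1 x = io u2 x := by
    intro x hx
    apply hio1
    intro p hp
    exact absurd hp.symm hx
  constructor
  · by_contra hT
    push Not at hT
    apply hne
    rw [← hB, ← hB, run_congr B (io u1) (io u2) T ?_ T le_rfl]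
    intro t ht x hx
    apply hagree
    rintro rfl
    have h1 := hR _ t _ ht hx
    rw [Nat.div_eq_of_lt (lt_trans ht hT)] at h1
    exact hv1 h1
  · by_contra hV
    push Not at hV
    apply hne
    rw [← hB, ← hB]
    have h1 : B.st (io u1) T = B.st (io u2) T := by
      have a1 := (B.st (io u1) T).2
      have a2 := (B.st (io u2) T).2
      apply Fin.ext
      omega
    rw [h1]

end Pool.Helper52.BP
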