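import Pool.Agent.Helper1.BP.COMB
import Pool.Agent.Helper1.BP.COMB2
import Pool.Agent.Helper20.BP.BNS
import Pool.Agent.Helper24.BP.CUT
import Pool.Agent.Helper24.BP.CUT2
import Pool.Agent.Helper33.BP.ATOM
import Pool.Agent.Helper38.BP.FIN1
import Pool.Agent.Helper38.BP.FIN12
import Pool.Agent.Helper49.BP.EMB
import Pool.Agent.Helper49.BP.TW2
import Pool.Agent.Helper90.BP.GC
import Pool.Agent.Helper92.BP.VCA
import Pool.Agent.Helper52.BP.TW
import Pool.Agent.Helper52.BP.FINA
import Pool.Agent.Helper52.BP.FINB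
import Pool.Agent.Helper52.BP.FINA2
import Pool.Agent.Helper52.BP.FINA3
import Pool.Agent.Helper52.BP.FINA4
import Pool.Agent.Helper52.BP.FIND

/-! # Assembly of the project BP (`MP_de6334_lc`) -/

set_option autoImplicit false

namespace Pool.Helper52.BP

/-- Adaptive programs with local reading. -/
theorem main_local : ST_FINA2 :=
  st_FINA2 (st_FIN12 (st_ATOM2 st_GREEDY st_CHUNK) st_EMB (st_COMB2 cut2 st_BNS)) (st_TW2 st_EMB)

/-- Adaptive programs with local reading, families of quasipolynomial size. -/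
theorem main_quasi : ST_FINA3 :=
  st_FINA3 (st_FIN12 (st_ATOM2 st_GREEDY st_CHUNK) st_EMB (st_COMB2 cut2 st_BNS)) (st_TW2 st_EMB)

/-- Adaptive programs with local reading, sets of linear size, windows of any length. -/
theorem main_sets : ST_FINA4 :=
  st_FINA4 (st_FIN12 (st_ATOM2 st_GREEDY st_CHUNK) st_EMB (st_COMB2 cut2 st_BNS)) (st_TW2 st_EMB)

theorem main_windows : ST_FINA :=
  st_FINA (st_FIN1 (st_ATOM st_GREEDY st_CHUNK) st_EMB (st_COMB cut st_BNS) (st_TW st_EMB))
    (st_TW st_EMB)

/-- Programs whose windows have bounded dimension. -/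
theorem main_dim : ST_FINC :=
  st_FINC (st_FINB main_windows st_VCA (st_TW st_EMB)) (st_TW st_EMB)

/-- Programs whose windows, of any length, have bounded dimension. -/
theorem main_dim2 : ST_FIND := st_FIND main_sets st_VCA (st_TW2 st_EMB)

end Pool.Helper52.BP
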