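import Pool.Agent.Helper52.BP.FINA

/-! # Rows FINB, FINC of the project BP (MP_de6334_lc) -/

set_option autoImplicit false

namespace Pool.Helper52.BP

open Finset

theorem st_FINB (hF : ST_FINA) (hV : ST_VCA) (hTW : ST_TW) : ST_FINB := by
  intro d r hr
  obtain ⟨c, hc, h⟩ := hF r hr
  refine ⟨c / 48 ^ d, by positivity, ?_⟩
  intro n V T B W hn hC hR hW hI
  have hr0 : (0 : ℝ) < r := by
    have : 0 < r := by omega
    exact_mod_cast this
  have hn0 : (0 : ℝ) < n := by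
    have : 0 < n := by omega
    exact_mod_cast this
  have hmain := h n V T B W hn hC hR hW
  have hw1 := S52.wd_pos r n hr hn
  obtain ⟨hwT, hV2⟩ := hTW n V T (wd r n) B W hn hw1 (S52.wd_le r n) hC hR hW
  have hS := S52.one_le_logb V hV2
  have hT0 : (0 : ℝ) < T := by
    have : 0 < T := by omega
    exact_mod_cast this
  have hw0 : (0 : ℝ) < (wd r n : ℝ) := by exact_mod_cast hw1
  -- the number of windows
  have hm : (nw W (T / wd r n + 1) : ℝ) + 1 ≤ 3 * ((T : ℝ) / (wd r n : ℝ)) := by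
    have h1 : nw W (T / wd r n + 1) ≤ T / wd r n + 1 := by
      unfold nw
      refine card_image_le.trans ?_
      rw [card_range]
    have h2 : (nw W (T / wd r n + 1) : ℝ) ≤ ((T / wd r n : ℕ) : ℝ) + 1 := by exact_mod_cast h1
    have h3 : ((T / wd r n : ℕ) : ℝ) ≤ (T : ℝ) / (wd r n : ℝ) := Nat.cast_div_le
    have h4 : 1 ≤ (T : ℝ) / (wd r n : ℝ) := by
      rw [le_div_iff₀ hw0, one_mul]
      exact_mod_cast hwT
    linarith
  -- the length of the windows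
  have hwd : (n : ℝ) ≤ 16 * (n : ℝ) ^ (1 / (r : ℝ)) * (wd r n : ℝ) := by
    have h8 := S52.eight_R r n hr hn
    have h1 : n < 8 * 2 ^ (Nat.log 2 n / r) * wd r n + 8 * 2 ^ (Nat.log 2 n / r) := by
      have h2 := Nat.div_add_mod n (8 * 2 ^ (Nat.log 2 n / r))
      have h3 := Nat.mod_lt n (show 0 < 8 * 2 ^ (Nat.log 2 n / r) by positivity)
      unfold wd
      omega
    have h4 : 8 * 2 ^ (Nat.log 2 n / r) ≤ 8 * 2 ^ (Nat.log 2 n / r) * wd r n :=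
      Nat.le_mul_of_pos_right _ hw1
    have h5 : n ≤ 16 * 2 ^ (Nat.log 2 n / r) * wd r n := by
      have h6 : 16 * 2 ^ (Nat.log 2 n / r) * wd r n =
          2 * (8 * 2 ^ (Nat.log 2 n / r) * wd r n) := by ring
      omega
    have h7 : (n : ℝ) ≤ 16 * ((2 ^ (Nat.log 2 n / r) : ℕ) : ℝ) * (wd r n : ℝ) := by
      exact_mod_cast h5
    refine h7.trans ?_
    have h9 := S52.R_le r n (by omega) (by omega)
    refine mul_le_mul_of_nonneg_right ?_ hw0.le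
    linarith
  have hM : (nw W (T / wd r n + 1) : ℝ) + 1 ≤ 48 * (T : ℝ) * (n : ℝ) ^ (1 / (r : ℝ) - 1) := by
    refine hm.trans ?_
    rw [Real.rpow_sub_one hn0.ne']
    have e : 3 * ((T : ℝ) / (wd r n : ℝ)) = 3 * (T : ℝ) / (wd r n : ℝ) := by ring
    have e2 : 48 * (T : ℝ) * ((n : ℝ) ^ (1 / (r : ℝ)) / n) =
        48 * (T : ℝ) * (n : ℝ) ^ (1 / (r : ℝ)) / n := by ring
    rw [e, e2, div_le_div_iff₀ hw0 hn0]
    nlinarith
  have ha : (na W (T / wd r n + 1) : ℝ) ≤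
      (48 * (T : ℝ) * (n : ℝ) ^ (1 / (r : ℝ) - 1)) ^ d := by
    have h1 := hV n (T / wd r n + 1) d W hI
    have h2 : (na W (T / wd r n + 1) : ℝ) ≤ ((nw W (T / wd r n + 1) : ℝ) + 1) ^ d := by
      exact_mod_cast h1
    exact h2.trans (pow_le_pow_left₀ (by positivity) hM d)
  have h1 : c * (n : ℝ) ^ (2 - 2 / (r : ℝ)) ≤ (T : ℝ) * Real.logb 2 V *
      (48 * (T : ℝ) * (n : ℝ) ^ (1 / (r : ℝ) - 1)) ^ d :=
    hmain.trans (mul_le_mul_of_nonneg_left ha (by positivity))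
  rw [mul_pow, mul_pow, ← Real.rpow_natCast ((n : ℝ) ^ (1 / (r : ℝ) - 1)) d,
    ← Real.rpow_mul hn0.le] at h1
  have hp : (n : ℝ) ^ (2 - 2 / (r : ℝ)) = (n : ℝ) ^ (((d : ℝ) + 2) * (1 - 1 / (r : ℝ))) *
      (n : ℝ) ^ ((1 / (r : ℝ) - 1) * (d : ℝ)) := by
    rw [← Real.rpow_add hn0]
    congr 1
    field_simp
    ring
  have hq : (0 : ℝ) < (n : ℝ) ^ ((1 / (r : ℝ) - 1) * (d : ℝ)) := Real.rpow_pos_of_pos hn0 _
  rw [hp] at h1
  have h2 : c * (n : ℝ) ^ (((d : ℝ) + 2) * (1 - 1 / (r : ℝ))) ≤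
      48 ^ d * ((T : ℝ) ^ (d + 1) * Real.logb 2 V) := by
    refine le_of_mul_le_mul_right ?_ hq
    calc c * (n : ℝ) ^ (((d : ℝ) + 2) * (1 - 1 / (r : ℝ))) *
        (n : ℝ) ^ ((1 / (r : ℝ) - 1) * (d : ℝ)) = _ := by ring
      _ ≤ _ := h1
      _ = _ := by ring
  rw [div_mul_eq_mul_div, div_le_iff₀ (by positivity)]
  linarith

theorem st_FINC (hF : ST_FINB) (hTW : ST_TW) : ST_FINC := by
  intro d r hr
  obtain ⟨c, hc, h⟩ := hF d r hr
  refine ⟨c ^ (1 / ((d : ℝ) + 1)), by positivity, ?_⟩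
  intro n V T B W hn hC hR hW hI
  have hn0 : (0 : ℝ) < n := by
    have : 0 < n := by omega
    exact_mod_cast this
  have hmain := h n V T B W hn hC hR hW hI
  obtain ⟨hwT, hV2⟩ := hTW n V T (wd r n) B W hn (S52.wd_pos r n hr hn) (S52.wd_le r n) hC hR hW
  have hS := S52.one_le_logb V hV2
  have hd : (0 : ℝ) < (d : ℝ) + 1 := by positivity
  have h1 : (T : ℝ) ^ (d + 1) * Real.logb 2 V ≤ ((T : ℝ) * Real.logb 2 V) ^ (d + 1) := by
    rw [mul_pow]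
    refine mul_le_mul_of_nonneg_left ?_ (by positivity)
    exact le_self_pow₀ hS (by omega)
  have h2 : (c ^ (1 / ((d : ℝ) + 1)) *
      (n : ℝ) ^ ((1 + 1 / ((d : ℝ) + 1)) * (1 - 1 / (r : ℝ)))) ^ (d + 1) =
      c * (n : ℝ) ^ (((d : ℝ) + 2) * (1 - 1 / (r : ℝ))) := by
    rw [mul_pow, ← Real.rpow_natCast (c ^ (1 / ((d : ℝ) + 1))), ← Real.rpow_mul hc.le,
      ← Real.rpow_natCast ((n : ℝ) ^ ((1 + 1 / ((d : ℝ) + 1)) * (1 - 1 / (r : ℝ)))),
      ← Real.rpow_mul hn0.le]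
    push_cast
    have e1 : 1 / ((d : ℝ) + 1) * ((d : ℝ) + 1) = 1 := by field_simp
    have e2 : (1 + 1 / ((d : ℝ) + 1)) * (1 - 1 / (r : ℝ)) * ((d : ℝ) + 1) =
        ((d : ℝ) + 2) * (1 - 1 / (r : ℝ)) := by
      have e3 : (1 + 1 / ((d : ℝ) + 1)) * ((d : ℝ) + 1) = (d : ℝ) + 2 := by
        field_simp
        ring
      rw [mul_right_comm, e3]
    rw [e1, e2, Real.rpow_one]
  refine le_of_pow_le_pow_left₀ (n := d + 1) (by omega) (by positivity) ?_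
  rw [h2]
  exact hmain.trans h1

end Pool.Helper52.BP
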