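import Mathlib

/-! # Time-space trade-offs for branching programs with a simple reading pattern (MP_de6334_lc)

A branching program whose `t`-th query is always in `W (t / w)`, `|W i| ≤ w` (for instance every
oblivious program), `w = n / 8R` with `R = n ^ (1 / r)`; `M = nw` different windows, `a = na` atoms.
Then `T · log V · a ≥ c n ^ (2 - 2 / r)` for the function `f n` (value of a sparse polynomial).

PROOF.  `N = 2 ^ kk n`, `n / 4 < N ≤ n / 2`: the variables below `N` are the arguments, the others are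
addresses.  Half of the arguments are in atoms of size `≥ N / 2a` (the set `G`), each window contains at
most the part `1 / R` of `G`.  GREEDY: if `M < R ^ q`, there are `q` points of `G` such that each window
misses one.  CHUNK: disjoint sets `e (j, ·)`, `j < q`, of `s` variables in the atoms of these points; each
window misses one of the sets.  EMB: restriction of `f n` to the generalized inner product.  CUT: the acceptance function is a
sum of at most `V ^ m` products of functions independent of one set each.  BNS: such a product has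
correlation at most `(1 - 4 ^ (-q)) ^ s` with the generalized inner product.
-/

set_option autoImplicit false

namespace Pool.Helper52.BP

open Finset

/-! ## The function -/

/-- the number of bits of an address -/
def kk (n : ℕ) : ℕ := Nat.log 2 n - 1
/-- the number of monomials -/
def LL (n : ℕ) : ℕ := 2 ^ kk n / kk n ^ 2

/-- the `i`-th bit of the input -/
def bit {n : ℕ} (z : Fin n → Bool) (i : ℕ) : Bool := if h : i < n then z ⟨i, h⟩ else false

/-- the `j`-th address of the `l`-th monomial, written in the input after the first `2 ^ kk n` bits -/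
def addr {n : ℕ} (z : Fin n → Bool) (l j : ℕ) : ℕ :=
  ∑ b ∈ range (kk n), if bit z (2 ^ kk n + ((l * kk n + j) * kk n + b)) = true then 2 ^ b else 0

/-- the sum modulo `2` of the `LL n` monomials -/
def f (n : ℕ) (z : Fin n → Bool) : Bool :=
  decide (((range (LL n)).filter (fun l => ∀ j < kk n, bit z (addr z l j) = true)).card % 2 = 1)

/-! ## Branching programs -/

/-- A branching program with `V` nodes on `n` variables; `lab v = none` for the sinks; the output is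
`out`. -/
structure BP (n V : ℕ) where
  src : Fin V
  lab : Fin V → Option (Fin n)
  next : Fin V → Bool → Fin V
  out : Fin V → Bool

namespace BP

variable {n V : ℕ}

/-- one step -/
def step (B : BP n V) (z : Fin n → Bool) (v : Fin V) : Fin V :=
  match B.lab v with
  | none => v
  | some x => B.next v (z x)

/-- the node after `t` steps -/
def st (B : BP n V) (z : Fin n → Bool) (t : ℕ) : Fin V := (B.step z)^[t] B.src

end BP

/-- `B` computes `g` with at most `T` queries (stops after `T` steps). -/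
def Comp {n V : ℕ} (B : BP n V) (T : ℕ) (g : (Fin n → Bool) → Bool) : Prop :=
  ∀ z, B.out (B.st z T) = g z

/-- The variable read at time `t < T` is in `W (t / w)`. -/
def Reads {n V : ℕ} (B : BP n V) (T w : ℕ) (W : ℕ → Finset (Fin n)) : Prop :=
  ∀ z t x, t < T → B.lab (B.st z t) = some x → x ∈ W (t / w)

/-- the number of different windows among `W 0, .., W (m - 1)` -/
def nw {n : ℕ} (W : ℕ → Finset (Fin n)) (m : ℕ) : ℕ := ((range m).image W).card

/-- the number of atoms of `W 0, .., W (m - 1)` -/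
def na {n : ℕ} (W : ℕ → Finset (Fin n)) (m : ℕ) : ℕ :=
  (univ.image (fun v : Fin n => (range m).filter (fun i => v ∈ W i))).card

/-- `d` windows in general position: all `2 ^ d` regions are nonempty -/
def Indep {n : ℕ} (W : ℕ → Finset (Fin n)) (m d : ℕ) : Prop :=
  ∃ D ⊆ (range m).image W, D.card = d ∧
    ∀ D' ⊆ D, ∃ v : Fin n, ∀ X ∈ D, (v ∈ X ↔ X ∈ D')

/-- the number of columns without zero -/
def ones {q s : ℕ} (u : Fin q → Fin s → Bool) : ℕ :=
  (univ.filter (fun l : Fin s => ∀ j, u j l = true)).card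

/-! ## The rows -/

/-- GREEDY.  Induction on `q`: by double counting some `g ∈ G` is in at most `|F| / R` of the sets. -/
def ST_GREEDY : Prop := ∀ (n R q : ℕ) (G : Finset (Fin n)) (F : Finset (Finset (Fin n))),
  G.Nonempty → (∀ X ∈ F, R * (G ∩ X).card ≤ G.card) → F.card < R ^ q →
  ∃ p : Fin q → Fin n, (∀ j, p j ∈ G) ∧ ∀ X ∈ F, ∃ j, p j ∉ X

/-- CHUNK (greedy choice, or Hall). -/
def ST_CHUNK : Prop := ∀ (n q s : ℕ) (C : Fin q → Finset (Fin n)),
  (∀ j, q * s ≤ (C j).card) →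
  ∃ e : Fin q × Fin s → Fin n, Function.Injective e ∧ ∀ p, e p ∈ C p.1

/-- ATOM (from GREEDY, CHUNK).  `s = 0`: trivial.  Otherwise `G = {v < N : 2 a |atom(v) ∩ [0, N)| ≥ N}`,
`2 |G| ≥ N` (the other atoms have together less than `a · N / 2a` elements), `2 R |W i| ≤ N ≤ 2 |G|`. -/
def ST_ATOM : Prop := ∀ (n m N R q s : ℕ) (W : ℕ → Finset (Fin n)), N ≤ n → 1 ≤ n → 1 ≤ m → 1 ≤ q →
  (∀ i < m, 2 * R * (W i).card ≤ N) → nw W m < R ^ q → q * s * (2 * na W m) ≤ N →
  ∃ (e : Fin q × Fin s → Fin n) (jj : ℕ → Fin q),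
    Function.Injective e ∧ (∀ p, (e p : ℕ) < N) ∧ ∀ i < m, ∀ l, e (jj i, l) ∉ W i

/-- EMB.  Arguments outside the range of `e` are `false`; a position `v₀ < 2 ^ kk n` outside the range
exists; for `l < s` the addresses are `e (min j (q - 1), l)`, for `l ≥ s` they are `v₀`; the bits of the
addresses are the binary digits (`Nat.testBit`); note `2 ^ kk n + LL n * kk n ^ 2 ≤ n`. -/
def ST_EMB : Prop := ∀ (n q s : ℕ) (e : Fin q × Fin s → Fin n), 64 ≤ n → 1 ≤ q → q ≤ kk n →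
  s ≤ LL n → q * s < 2 ^ kk n → Function.Injective e → (∀ p, (e p : ℕ) < 2 ^ kk n) →
  ∃ io : (Fin q → Fin s → Bool) → (Fin n → Bool),
    (∀ u u' v, (∀ p, e p = v → u p.1 p.2 = u' p.1 p.2) → io u v = io u' v) ∧
    ∀ u, f n (io u) = decide (ones u % 2 = 1)

/-- CUT.  `λ i` = node at the time `min ((i + 1) w) T`; the factor of window `i`: the run from `λ (i-1)`
during the window (times `min (i w) T ≤ t < min ((i + 1) w) T`) reads no variable `e (jj i, ·)` and ends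
in `λ i`; this does not depend on `u (jj i)`.  `al λ = 1` if `out (λ (m - 1))`, otherwise `0`. -/
def ST_CUT : Prop := ∀ (n V T w m q s : ℕ) (B : BP n V) (W : ℕ → Finset (Fin n))
  (e : Fin q × Fin s → Fin n) (io : (Fin q → Fin s → Bool) → (Fin n → Bool)) (jj : ℕ → Fin q),
  1 ≤ w → 1 ≤ m → T ≤ m * w → Reads B T w W → (∀ i < m, ∀ l, e (jj i, l) ∉ W i) →
  (∀ u u' v, (∀ p, e p = v → u p.1 p.2 = u' p.1 p.2) → io u v = io u' v) →
  ∃ (al : (Fin m → Fin V) → ℝ) (ph : (Fin m → Fin V) → Fin q → (Fin q → Fin s → Bool) → ℝ),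
    (∀ la, |al la| ≤ 1) ∧ (∀ la j u, |ph la j u| ≤ 1) ∧
    (∀ la j u u', (∀ j', j' ≠ j → u j' = u' j') → ph la j u = ph la j u') ∧
    ∀ u, (if B.out (B.st (io u) T) = true then (1 : ℝ) else 0) = ∑ la, al la * ∏ j, ph la j u

/-- BNS (Babai, Nisan, Szegedy).  Induction on `q`, for the sum over the columns in `D ⊆ Fin s`, bound
`μ_q ^ |D|`, `μ_1 = 0`, `2 μ_q² = 1 + μ_(q-1)` (Cauchy-Schwarz in the last player: the columns where
`u`, `u'` agree cancel), and `μ_q ≤ 1 - 4 ^ (-q)`. -/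
def ST_BNS : Prop := ∀ (q s : ℕ) (ph : Fin q → (Fin q → Fin s → Bool) → ℝ), 1 ≤ q →
  (∀ j u, |ph j u| ≤ 1) → (∀ j u u', (∀ j', j' ≠ j → u j' = u' j') → ph j u = ph j u') →
  |∑ u : Fin q → Fin s → Bool, (-1 : ℝ) ^ ones u * ∏ j, ph j u| ≤
    (1 - (1 / 4 : ℝ) ^ q) ^ s * 2 ^ (q * s)

/-- COMB (from CUT, BNS): `(-1) ^ ones u = 1 - 2 [B accepts]`, multiply by `(-1) ^ ones u` and sum. -/
def ST_COMB : Prop := ∀ (n V T w m q s : ℕ) (B : BP n V) (W : ℕ → Finset (Fin n))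
  (e : Fin q × Fin s → Fin n) (io : (Fin q → Fin s → Bool) → (Fin n → Bool)) (jj : ℕ → Fin q),
  1 ≤ q → 1 ≤ w → 1 ≤ m → T ≤ m * w → Reads B T w W → (∀ i < m, ∀ l, e (jj i, l) ∉ W i) →
  (∀ u u' v, (∀ p, e p = v → u p.1 p.2 = u' p.1 p.2) → io u v = io u' v) →
  (∀ u, B.out (B.st (io u) T) = decide (ones u % 2 = 1)) →
  1 ≤ 3 * (V : ℝ) ^ m * (1 - (1 / 4 : ℝ) ^ q) ^ s

/-- TW (from CUT with `m = q = s = 1`, EMB).  If `T < w` only `W 0` is read, `|W 0| ≤ w < 2 ^ kk n`, so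
some argument is never read.  `V ≥ 2` since `f n` is not constant. -/
def ST_TW : Prop := ∀ (n V T w : ℕ) (B : BP n V) (W : ℕ → Finset (Fin n)), 64 ≤ n → 1 ≤ w →
  4 * w ≤ n → Comp B T (f n) → Reads B T w W → (∀ i, (W i).card ≤ w) → w ≤ T ∧ 2 ≤ V

/-- FIN1 (from ATOM, EMB, COMB, TW), `w = n / 8R`, `m = T / w + 1`, `N = 2 ^ kk n`, `s = N / (2 a k²)`.
If `s = 0` then `2 a k² > N`; otherwise `N / 4ak² ≤ s ≤ 4 ^ q (log 3 + m log V)`, `log 3 ≤ 2 m log V`,
`m ≤ 2 T / w`, `w ≥ n / 16R`, `N > n / 4`. -/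
def ST_FIN1 : Prop := ∀ (n V T R q : ℕ) (B : BP n V) (W : ℕ → Finset (Fin n)),
  64 ≤ n → 2 ≤ R → 8 * R ≤ n → 1 ≤ q → q ≤ kk n → nw W (T / (n / (8 * R)) + 1) < R ^ q →
  Comp B T (f n) → Reads B T (n / (8 * R)) W → (∀ i, (W i).card ≤ n / (8 * R)) →
  (n : ℝ) ^ 2 ≤ 1536 * ((T : ℝ) * Real.logb 2 V * (na W (T / (n / (8 * R)) + 1) : ℝ)) *
    ((R : ℝ) * 4 ^ q * Real.logb 2 n ^ 2)

/-- the length of the windows, about `n ^ (1 - 1 / r) / 8` -/
def wd (r n : ℕ) : ℕ := n / (8 * 2 ^ (Nat.log 2 n / r))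

/-- FINA (from FIN1, TW).  `R = 2 ^ (log₂ n / r)`, `q = 4 r`: if `T ≥ n²` trivial, otherwise
`nw ≤ m ≤ 32 R n < R ^ q` for large `n`; `R 4 ^ q log² n ≤ C n ^ (2 / r)`; small `n`: `T, logb V, a ≥ 1`. -/
def ST_FINA : Prop := ∀ r : ℕ, 2 ≤ r → ∃ c : ℝ, 0 < c ∧ ∀ (n V T : ℕ) (B : BP n V)
  (W : ℕ → Finset (Fin n)), 64 ≤ n → Comp B T (f n) → Reads B T (wd r n) W →
  (∀ i, (W i).card ≤ wd r n) →
  c * (n : ℝ) ^ (2 - 2 / (r : ℝ)) ≤ (T : ℝ) * Real.logb 2 V * (na W (T / wd r n + 1) : ℝ)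

/-- VCA (Sauer-Shelah for the traces of the points on the set of the different windows). -/
def ST_VCA : Prop := ∀ (n m d : ℕ) (W : ℕ → Finset (Fin n)), ¬ Indep W m (d + 1) →
  na W m ≤ (nw W m + 1) ^ d

/-- FINB (from FINA, VCA, TW): `nw + 1 ≤ m + 1 ≤ 3 T / wd`, `n / wd ≤ 16 n ^ (1 / r)`. -/
def ST_FINB : Prop := ∀ d r : ℕ, 2 ≤ r → ∃ c : ℝ, 0 < c ∧ ∀ (n V T : ℕ) (B : BP n V)
  (W : ℕ → Finset (Fin n)), 64 ≤ n → Comp B T (f n) → Reads B T (wd r n) W →
  (∀ i, (W i).card ≤ wd r n) → ¬ Indep W (T / wd r n + 1) (d + 1) →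
  c * (n : ℝ) ^ (((d : ℝ) + 2) * (1 - 1 / (r : ℝ))) ≤ (T : ℝ) ^ (d + 1) * Real.logb 2 V

/-- FINC (from FINB, TW): the form of the question; `(T S) ^ (d + 1) ≥ T ^ (d + 1) S`. -/
def ST_FINC : Prop := ∀ d r : ℕ, 2 ≤ r → ∃ c : ℝ, 0 < c ∧ ∀ (n V T : ℕ) (B : BP n V)
  (W : ℕ → Finset (Fin n)), 64 ≤ n → Comp B T (f n) → Reads B T (wd r n) W →
  (∀ i, (W i).card ≤ wd r n) → ¬ Indep W (T / wd r n + 1) (d + 1) →
  c * (n : ℝ) ^ ((1 + 1 / ((d : ℝ) + 1)) * (1 - 1 / (r : ℝ))) ≤ (T : ℝ) * Real.logb 2 V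

end Pool.Helper52.BP
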